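import Pool.Agent.H505R2.Final

set_option autoImplicit false

namespace Pool.Agent.H505R2

open Finset Filter

lemma ev_ge {a : ℝ} (ha : 0 < a) (A : ℝ) : ∀ᶠ X : ℕ in atTop, A ≤ (X : ℝ) ^ a :=
  ((tendsto_rpow_atTop ha).comp tendsto_natCast_atTop_atTop).eventually_ge_atTop A

/-- choice of the sieve level -/
lemma exists_level {x : ℝ} (I0 : ℕ) (hx : (2 : ℝ) ^ (584 * 2 ^ I0) ≤ x) :
    ∃ I : ℕ, I0 ≤ I ∧ (2 : ℝ) ^ (584 * 2 ^ I) ≤ x ∧ x < 2 ^ (1168 * 2 ^ I) := by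
  set n := ⌊x⌋₊ with hn
  have hxpos : 0 < x := lt_of_lt_of_le (by positivity) hx
  have hn1 : 2 ^ (584 * 2 ^ I0) ≤ n := by
    rw [hn]
    apply Nat.le_floor
    push_cast
    exact hx
  have hn0 : n ≠ 0 := by
    have : 0 < 2 ^ (584 * 2 ^ I0) := by positivity
    omega
  set L := Nat.log 2 n with hL
  set J := L / 584 with hJ
  have hLle : 584 * 2 ^ I0 ≤ L := by
    rw [hL]
    exact Nat.le_log_of_pow_le (by norm_num) hn1
  have hJ1 : 2 ^ I0 ≤ J := by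
    rw [hJ, Nat.le_div_iff_mul_le (by norm_num)]
    omega
  have hJ0 : J ≠ 0 := by
    have : 0 < 2 ^ I0 := by positivity
    omega
  refine ⟨Nat.log 2 J, ?_, ?_, ?_⟩
  · exact Nat.le_log_of_pow_le (by norm_num) hJ1
  · have h1 : 2 ^ Nat.log 2 J ≤ J := Nat.pow_log_le_self 2 hJ0
    have h2 : 584 * 2 ^ Nat.log 2 J ≤ L := by
      have : 584 * J ≤ L := by rw [hJ]; exact Nat.mul_div_le _ _
      omega
    have h3 : 2 ^ (584 * 2 ^ Nat.log 2 J) ≤ n :=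
      (Nat.pow_le_pow_right (by norm_num) h2).trans (Nat.pow_log_le_self 2 hn0)
    have h4 : ((2 ^ (584 * 2 ^ Nat.log 2 J) : ℕ) : ℝ) ≤ (n : ℝ) := by exact_mod_cast h3
    push_cast at h4
    exact h4.trans (Nat.floor_le hxpos.le)
  · have h1 : J < 2 ^ (Nat.log 2 J + 1) := Nat.lt_pow_succ_log_self (by norm_num) J
    have h2 : L + 1 ≤ 1168 * 2 ^ Nat.log 2 J := by
      have h3 : L < 584 * (J + 1) := by
        have := Nat.lt_mul_div_succ L (show 0 < 584 by norm_num)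
        rw [← hJ] at this
        exact this
      rw [pow_succ] at h1
      omega
    have h3 : n < 2 ^ (L + 1) := Nat.lt_pow_succ_log_self (by norm_num) n
    have h4 : n + 1 ≤ 2 ^ (1168 * 2 ^ Nat.log 2 J) :=
      (Nat.succ_le_of_lt h3).trans (Nat.pow_le_pow_right (by norm_num) h2)
    have h5 : ((n + 1 : ℕ) : ℝ) ≤ ((2 ^ (1168 * 2 ^ Nat.log 2 J) : ℕ) : ℝ) := by exact_mod_cast h4
    push_cast at h5
    exact lt_of_lt_of_le (Nat.lt_floor_add_one x) h5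

theorem core {b c t s s' m0 : ℤ} (j m : ℕ) (hm : 1 ≤ m) (hb : b = 0 ∨ b = 1) (hc : 1 ≤ c)
    (hj2 : ¬ (2 : ℤ) ∣ qf b c (j, 1)) (hj3 : ¬ (3 : ℤ) ∣ qf b c (j, 1))
    (ht2 : ¬ (2 : ℤ) ∣ qf b c (j * t - 1, t)) (ht3 : ¬ (3 : ℤ) ∣ qf b c (j * t - 1, t))
    (hs : s * s' = 6) (hs0 : 0 < s)
    (hm0 : qf b c (j * t - 1 + m * j, t + m) = s * m0) (hm02 : ¬ (2 : ℤ) ∣ m0)
    (hm03 : ¬ (3 : ℤ) ∣ m0) (ε : ℝ) (hε : 0 < ε) :
    ∃ δ : ℝ, 0 < δ ∧ ∀ᶠ X : ℕ in atTop, ∃ I : ℕ, (X : ℝ) ^ δ < 2 ^ 2 ^ I ∧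
      ∃ i < 2, ∃ l < 2, (X : ℝ) ^ (1 - ε) ≤ ((TA b c 1 1 I X i).card : ℝ) ∧
        (X : ℝ) ^ (1 - ε) ≤ ((TA b c 1 s I X l).card : ℝ) ∧
        (X : ℝ) ^ (1 - ε) ≤ ((TA b c m s I X ((i + l) % 2)).card : ℝ) := by
  set η : ℝ := min ε 1 / 12 with hη
  have hmin : 0 < min ε 1 := lt_min hε one_pos
  have hη0 : 0 < η := by rw [hη]; positivity
  have hη1 : η ≤ 1 / 12 := by
    rw [hη]
    have := min_le_right ε 1
    linarith
  have hη2 : 12 * η ≤ ε := by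
    rw [hη]
    have := min_le_left ε 1
    linarith
  obtain ⟨C, hC1, hC⟩ := div_bound (δ := η / 3) (by positivity)
  set C0 : ℕ := ((1 + m + b + c) ^ 2 * 72 ^ 2 * (37 * (1 + j)) ^ 2).toNat with hC0def
  have hb0 : 0 ≤ b := by rcases hb with rfl | rfl <;> norm_num
  have hC0 : (1 + m + b + c) ^ 2 * 72 ^ 2 * (37 * (1 + j)) ^ 2 ≤ (C0 : ℤ) := by
    rw [hC0def]; exact Int.self_le_toNat _
  have hC0big : 37 ^ 2 ≤ C0 := by
    have h1 : (37 : ℤ) ^ 2 ≤ (1 + m + b + c) ^ 2 * 72 ^ 2 * (37 * (1 + j)) ^ 2 := by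
      have hm' : (0 : ℤ) ≤ m := by positivity
      have h2 : (1 : ℤ) ≤ (1 + m + b + c) ^ 2 := one_le_pow₀ (by linarith)
      have h3 : (37 : ℤ) ^ 2 ≤ (37 * (1 + j)) ^ 2 := pow_le_pow_left₀ (by norm_num) (by
        have : (0 : ℤ) ≤ j := by positivity
        linarith) 2
      have h4 : (0 : ℤ) ≤ (37 * (1 + j)) ^ 2 := by positivity
      nlinarith
    have h2 := h1.trans hC0
    exact_mod_cast h2
  obtain ⟨D, hD⟩ := exists_nat_ge (1168 / η)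
  set I0 : ℕ := D + 20 with hI0
  refine ⟨η / 1168, by positivity, ?_⟩
  filter_upwards [ev_ge hη0 ((2 : ℝ) ^ (584 * 2 ^ I0)), ev_ge (show (0 : ℝ) < 1 - 5 * η by linarith)
    (C0 : ℝ), eventually_ge_atTop (1 + b * m + c * m ^ 2).toNat, eventually_ge_atTop 1,
    ev_ge (show (0 : ℝ) < ε - 4 * η by linarith) (16 * (4 * m + 1) ^ 2 * (C0 : ℝ) * C)]
    with X hX1 hX2 hX3 hX4 hX5
  have hX0 : (0 : ℝ) < X := by exact_mod_cast hX4
  have hX1' : (1 : ℝ) ≤ X := by exact_mod_cast hX4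
  obtain ⟨I, hII, hI1, hI2⟩ := exists_level I0 hX1
  have hI10 : 10 ≤ I := by omega
  refine ⟨I, ?_, ?_⟩
  · -- sifting limit
    have h1 : ((X : ℝ) ^ (η / 1168)) ^ (1168 : ℕ) < ((2 : ℝ) ^ 2 ^ I) ^ (1168 : ℕ) := by
      rw [← Real.rpow_natCast, ← Real.rpow_mul hX0.le, ← pow_mul]
      have e1 : η / 1168 * ((1168 : ℕ) : ℝ) = η := by push_cast; ring
      rw [e1, mul_comm (2 ^ I) 1168]
      exact hI2
    exact lt_of_pow_lt_pow_left₀ 1168 (by positivity) h1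
  -- parameters
  set M : ℕ := C0 * 2 ^ (1168 * 2 ^ I) with hM
  have hMpos : 0 < M := by rw [hM]; positivity
  set V : ℕ := Nat.sqrt (X / M) with hV
  have hVX : M * V ^ 2 ≤ X := by
    have h1 : V ^ 2 ≤ X / M := Nat.sqrt_le' _
    calc M * V ^ 2 ≤ M * (X / M) := Nat.mul_le_mul_left _ h1
      _ ≤ X := Nat.mul_div_le _ _
  -- K^5 ≤ X^(5η)
  have hK5 : (2 : ℝ) ^ (2338 * 2 ^ I) ≤ (X : ℝ) ^ (5 * η) := by
    calc (2 : ℝ) ^ (2338 * 2 ^ I) ≤ ((2 : ℝ) ^ (584 * 2 ^ I)) ^ 5 := by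
          rw [← pow_mul]
          apply pow_le_pow_right₀ (by norm_num)
          have : 0 < 2 ^ I := by positivity
          omega
      _ ≤ ((X : ℝ) ^ η) ^ 5 := pow_le_pow_left₀ (by positivity) hI1 5
      _ = (X : ℝ) ^ (5 * η) := by
          rw [← Real.rpow_natCast, ← Real.rpow_mul hX0.le]
          congr 1
          push_cast
          ring
  have hKV : 2 ^ (585 * 2 ^ I) ≤ V := by
    rw [hV, Nat.le_sqrt, Nat.le_div_iff_mul_le hMpos]
    have h1 : (C0 : ℝ) * 2 ^ (2338 * 2 ^ I) ≤ X := by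
      calc (C0 : ℝ) * 2 ^ (2338 * 2 ^ I) ≤ (X : ℝ) ^ (1 - 5 * η) * (X : ℝ) ^ (5 * η) :=
            mul_le_mul hX2 hK5 (by positivity) (by positivity)
        _ = X := by
            rw [← Real.rpow_add hX0]
            have : 1 - 5 * η + 5 * η = 1 := by ring
            rw [this, Real.rpow_one]
    have h2 : 2 ^ (585 * 2 ^ I) * 2 ^ (585 * 2 ^ I) * M = C0 * 2 ^ (2338 * 2 ^ I) := by
      rw [hM]
      rw [show 2338 * 2 ^ I = 585 * 2 ^ I + 585 * 2 ^ I + 1168 * 2 ^ I by ring, pow_add, pow_add]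
      ring
    rw [h2]
    exact_mod_cast h1
  have hV1 : 1 ≤ V := le_trans Nat.one_le_two_pow hKV
  have hX4M : X ≤ 4 * (M * V ^ 2) := by
    have h1 : X < M * (X / M + 1) := Nat.lt_mul_div_succ X hMpos
    have h2 : X / M + 1 ≤ (V + 1) ^ 2 := by
      have := Nat.lt_succ_sqrt' (X / M)
      rw [← hV] at this
      exact this
    have h3 : (V + 1) ^ 2 ≤ 4 * V ^ 2 := by nlinarith
    calc X ≤ M * (X / M + 1) := h1.le
      _ ≤ M * (4 * V ^ 2) := Nat.mul_le_mul_left _ (h2.trans h3)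
      _ = 4 * (M * V ^ 2) := by ring
  set W : ℕ := D * 2 ^ I with hW
  have hXW : (X : ℝ) ≤ 2 ^ W := by
    have h1 : (X : ℝ) = ((X : ℝ) ^ η) ^ (1 / η) := by
      rw [← Real.rpow_mul hX0.le, mul_one_div_cancel hη0.ne', Real.rpow_one]
    rw [h1]
    calc ((X : ℝ) ^ η) ^ (1 / η) ≤ ((2 : ℝ) ^ (1168 * 2 ^ I)) ^ (1 / η) :=
          Real.rpow_le_rpow (by positivity) hI2.le (by positivity)
      _ = (2 : ℝ) ^ (((1168 * 2 ^ I : ℕ) : ℝ) * (1 / η)) := by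
          rw [← Real.rpow_natCast, ← Real.rpow_mul (by norm_num)]
      _ ≤ (2 : ℝ) ^ ((W : ℕ) : ℝ) := by
          apply Real.rpow_le_rpow_of_exponent_le (by norm_num)
          rw [hW]
          push_cast
          have h2 : (0 : ℝ) < 2 ^ I := by positivity
          calc (1168 : ℝ) * 2 ^ I * (1 / η) = (1168 / η) * 2 ^ I := by ring
            _ ≤ D * 2 ^ I := mul_le_mul_of_nonneg_right hD h2.le
      _ = (2 : ℝ) ^ W := Real.rpow_natCast _ _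
  have hVW : 37 * V ≤ 2 ^ W := by
    have h1 : X ≤ 2 ^ W := by exact_mod_cast hXW
    refine le_trans ?_ h1
    have h2 : 37 ^ 2 * V ^ 2 ≤ M * V ^ 2 := by
      apply Nat.mul_le_mul_right
      rw [hM]
      calc 37 ^ 2 = 37 ^ 2 * 1 := by norm_num
        _ ≤ C0 * 2 ^ (1168 * 2 ^ I) := Nat.mul_le_mul hC0big Nat.one_le_two_pow
    nlinarith
  have hWI : W * 2 ^ (93 * I + 4) ≤ 2 ^ 2 ^ I := by
    have h1 : D ≤ 2 ^ D := Nat.lt_two_pow_self.le
    calc W * 2 ^ (93 * I + 4) ≤ (2 ^ D * 2 ^ I) * 2 ^ (93 * I + 4) := by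
          rw [hW]
          exact Nat.mul_le_mul_right _ (Nat.mul_le_mul_right _ h1)
      _ = 2 ^ (D + I + (93 * I + 4)) := by rw [← pow_add, ← pow_add]
      _ ≤ 2 ^ 2 ^ I := by
          apply Nat.pow_le_pow_right (by norm_num)
          have h2 : 95 * I + 4 ≤ 2 ^ I := by
            have h3 : ∀ n : ℕ, 20 ≤ n → 95 * n + 4 ≤ 2 ^ n := by
              intro n hn
              induction n, hn using Nat.le_induction with
              | base => norm_num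
              | succ n hn ih => rw [pow_succ]; omega
            exact h3 I (by omega)
          omega
  -- divisor bound
  set T : ℕ := ⌊C * (X : ℝ) ^ η⌋₊ with hT
  have hTb : ∀ m' : ℕ, (m' = 1 ∨ m' = m) → ∀ N : ℕ, N ≤ X →
      (fm b c m' (N : ℤ)).toNat.divisors.card ≤ T := by
    intro m' hm' N hN
    have hbc : b ^ 2 < 4 * c := by rcases hb with rfl | rfl <;> nlinarith
    have hm1 : 1 ≤ m' := by omega
    have hm2 : m' ≤ m := by omega
    have hm1Z : (1 : ℤ) ≤ m' := by exact_mod_cast hm1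
    have hm2Z : (m' : ℤ) ≤ m := by exact_mod_cast hm2
    have h1 := fm_pos hbc hm1Z (N : ℤ)
    have h2 : fm b c m' (N : ℤ) ≤ (X : ℤ) ^ 3 := by
      have hNX : (N : ℤ) ≤ X := by exact_mod_cast hN
      have hN0 : (0 : ℤ) ≤ N := by positivity
      have hXZ : (1 : ℤ) ≤ X := by exact_mod_cast hX4
      have hX3' : 1 + b * m + c * m ^ 2 ≤ (X : ℤ) := by
        have := Int.self_le_toNat (1 + b * m + c * m ^ 2)
        have h3 : (((1 + b * m + c * m ^ 2).toNat : ℕ) : ℤ) ≤ (X : ℤ) := by exact_mod_cast hX3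
        linarith
      have h4 : fm b c m' (N : ℤ) ≤ (1 + b * m + c * m ^ 2) * (X : ℤ) ^ 2 := by
        unfold fm
        have h5 : (N : ℤ) ^ 2 ≤ (X : ℤ) ^ 2 := pow_le_pow_left₀ hN0 hNX 2
        have h6 : (N : ℤ) ≤ (X : ℤ) ^ 2 := by nlinarith
        have h7 : (1 : ℤ) ≤ (X : ℤ) ^ 2 := one_le_pow₀ hXZ
        have h8 : b * m' * N ≤ b * m * (X : ℤ) ^ 2 :=
          mul_le_mul (mul_le_mul_of_nonneg_left hm2Z hb0) h6 hN0 (by positivity)
        have h9 : c * (m' : ℤ) ^ 2 ≤ c * (m : ℤ) ^ 2 * (X : ℤ) ^ 2 := by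
          have h10 : (m' : ℤ) ^ 2 ≤ (m : ℤ) ^ 2 := pow_le_pow_left₀ (by linarith) hm2Z 2
          have h11 : c * (m' : ℤ) ^ 2 ≤ c * (m : ℤ) ^ 2 := mul_le_mul_of_nonneg_left h10 (by linarith)
          have h12 : 0 ≤ c * (m : ℤ) ^ 2 := by positivity
          nlinarith
        nlinarith
      calc fm b c m' (N : ℤ) ≤ (1 + b * m + c * m ^ 2) * (X : ℤ) ^ 2 := h4
        _ ≤ (X : ℤ) * (X : ℤ) ^ 2 := mul_le_mul_of_nonneg_right hX3' (by positivity)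
        _ = (X : ℤ) ^ 3 := by ring
    have h3 : (fm b c m' (N : ℤ)).toNat ≤ X ^ 3 := by
      have : (((fm b c m' (N : ℤ)).toNat : ℕ) : ℤ) ≤ ((X ^ 3 : ℕ) : ℤ) := by
        rw [Int.toNat_of_nonneg h1.le]; push_cast; exact h2
      exact_mod_cast this
    rw [hT]
    apply Nat.le_floor
    refine (hC _ (by omega)).trans ?_
    apply mul_le_mul_of_nonneg_left _ (by linarith)
    calc (((fm b c m' (N : ℤ)).toNat : ℕ) : ℝ) ^ (η / 3) ≤ ((X : ℝ) ^ 3) ^ (η / 3) := by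
          apply Real.rpow_le_rpow (by positivity) _ (by positivity)
          exact_mod_cast h3
      _ = (X : ℝ) ^ η := by
          rw [← Real.rpow_natCast, ← Real.rpow_mul hX0.le]
          congr 1
          push_cast
          ring
  have hTle : (T : ℝ) ≤ C * (X : ℝ) ^ η := Nat.floor_le (by positivity)
  obtain ⟨i, hi, l, hl, f1, f2, f3⟩ := finite_version j m hm hb hc hj2 hj3 ht2 ht3 hs hs0 hm0 hm02
    hm03 I hI10 V W X T C0 hVW hKV hWI hC0 hVX hTb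
  -- from counts to power bounds
  obtain ⟨κ, hκ⟩ : ∃ κ : ℝ, κ = 4 * (4 * m + 1) ^ 2 := ⟨_, rfl⟩
  have hκ0 : 0 < κ := by rw [hκ]; positivity
  rw [← hκ] at f1 f2 f3
  have hX5' : 4 * κ * C0 * C ≤ (X : ℝ) ^ (ε - 4 * η) := by
    rw [hκ]
    refine le_trans (le_of_eq ?_) hX5
    ring
  have conv : ∀ S : ℝ, 0 ≤ S → (V : ℝ) ^ 2 ≤ 2 ^ (584 * 2 ^ I) * (κ * T * S) →
      (X : ℝ) ^ (1 - ε) ≤ S := by
    intro S hS h
    have h1 : (X : ℝ) ≤ 4 * ((C0 : ℝ) * 2 ^ (1168 * 2 ^ I) * (V : ℝ) ^ 2) := by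
      have : ((X : ℕ) : ℝ) ≤ ((4 * (M * V ^ 2) : ℕ) : ℝ) := by exact_mod_cast hX4M
      rw [hM] at this
      push_cast at this
      exact this
    set K : ℝ := 2 ^ (584 * 2 ^ I) with hK
    have hK0 : 0 < K := by rw [hK]; positivity
    have hKK : (2 : ℝ) ^ (1168 * 2 ^ I) = K ^ 2 := by
      rw [hK, ← pow_mul, show 584 * 2 ^ I * 2 = 1168 * 2 ^ I by ring]
    have h2 : (X : ℝ) ≤ 4 * κ * C0 * (K ^ 3 * (T * S)) := by
      rw [hKK] at h1
      refine h1.trans ?_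
      calc 4 * ((C0 : ℝ) * K ^ 2 * (V : ℝ) ^ 2) ≤ 4 * ((C0 : ℝ) * K ^ 2 * (K * (κ * T * S))) := by
            have : (0 : ℝ) ≤ (C0 : ℝ) * K ^ 2 := by positivity
            nlinarith [mul_le_mul_of_nonneg_left h this]
        _ = 4 * κ * C0 * (K ^ 3 * (T * S)) := by ring
    have h3 : (X : ℝ) ≤ 4 * κ * C0 * (((X : ℝ) ^ η) ^ 3 * (C * (X : ℝ) ^ η * S)) := by
      refine h2.trans ?_
      apply mul_le_mul_of_nonneg_left _ (by positivity)
      apply mul_le_mul (pow_le_pow_left₀ hK0.le hI1 3) _ (by positivity) (by positivity)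
      exact mul_le_mul_of_nonneg_right hTle hS
    have h4 : ((X : ℝ) ^ η) ^ 3 * (X : ℝ) ^ η = (X : ℝ) ^ (4 * η) := by
      rw [← pow_succ, ← Real.rpow_natCast, ← Real.rpow_mul hX0.le]
      congr 1
      push_cast
      ring
    have h5 : (X : ℝ) ≤ (4 * κ * C0 * C) * ((X : ℝ) ^ (4 * η) * S) := by
      rw [← h4]
      calc (X : ℝ) ≤ 4 * κ * C0 * (((X : ℝ) ^ η) ^ 3 * (C * (X : ℝ) ^ η * S)) := h3
        _ = (4 * κ * C0 * C) * (((X : ℝ) ^ η) ^ 3 * (X : ℝ) ^ η * S) := by ring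
    have h6 : (X : ℝ) ≤ (X : ℝ) ^ (ε - 4 * η) * ((X : ℝ) ^ (4 * η) * S) :=
      h5.trans (mul_le_mul_of_nonneg_right hX5' (by positivity))
    rw [← mul_assoc, ← Real.rpow_add hX0, show ε - 4 * η + 4 * η = ε by ring] at h6
    rw [Real.rpow_sub hX0, Real.rpow_one, div_le_iff₀ (by positivity), mul_comm]
    exact h6
  exact ⟨i, hi, l, hl, conv _ (Nat.cast_nonneg _) f1, conv _ (Nat.cast_nonneg _) f2,
    conv _ (Nat.cast_nonneg _) f3⟩

end Pool.Agent.H505R2
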