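import Mathlib

/-!
The divisor bound. This file is copied from `Pool/Agent/H358R2/Asym.lean` (helper358).
-/

set_option autoImplicit false

namespace Pool.Agent.H505R2

theorem aux_pow (K e : ℕ) (hK : 0 < K) : (e + 1) ^ K ≤ K ^ K * 2 * 2 ^ e := by
  have h1 : e + 1 < K * ((e + 1) / K + 1) := by
    have := Nat.lt_mul_div_succ (e + 1) hK
    simpa using this
  have h2 : (e + 1) / K + 1 ≤ 2 ^ ((e + 1) / K) := Nat.lt_two_pow_self
  have h3 : e + 1 ≤ K * 2 ^ ((e + 1) / K) := by
    calc e + 1 ≤ K * ((e + 1) / K + 1) := h1.le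
      _ ≤ K * 2 ^ ((e + 1) / K) := Nat.mul_le_mul_left _ h2
  calc (e + 1) ^ K ≤ (K * 2 ^ ((e + 1) / K)) ^ K := Nat.pow_le_pow_left h3 K
    _ = K ^ K * 2 ^ ((e + 1) / K * K) := by rw [mul_pow, ← pow_mul]
    _ ≤ K ^ K * 2 ^ (e + 1) := by
        apply Nat.mul_le_mul_left
        exact Nat.pow_le_pow_right (by norm_num) (Nat.div_mul_le_self _ _)
    _ = K ^ K * 2 * 2 ^ e := by rw [pow_succ]; ring

/-- `d(n) ^ K ≤ C_K n` -/
theorem card_divisors_pow_le (K : ℕ) (hK : 0 < K) (n : ℕ) (hn : n ≠ 0) :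
    (n.divisors.card) ^ K ≤ (K ^ K * 2) ^ (2 ^ K) * n := by
  rw [Nat.card_divisors hn]
  set c : ℕ → ℕ := fun q => if q < 2 ^ K then K ^ K * 2 else 1 with hc
  have hc0 : 1 ≤ K ^ K * 2 := by
    have : 0 < K ^ K := Nat.pow_pos hK
    omega
  have key : ∀ q ∈ n.primeFactors, (n.factorization q + 1) ^ K ≤ c q * q ^ n.factorization q := by
    intro q hq
    have hqp : q.Prime := Nat.prime_of_mem_primeFactors hq
    by_cases h : q < 2 ^ K
    · simp only [hc, h, if_true]
      refine (aux_pow K _ hK).trans ?_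
      exact Nat.mul_le_mul_left _ (Nat.pow_le_pow_left hqp.two_le _)
    · simp only [hc, h, if_false, one_mul]
      push Not at h
      calc (n.factorization q + 1) ^ K ≤ (2 ^ n.factorization q) ^ K :=
            Nat.pow_le_pow_left Nat.lt_two_pow_self K
        _ = (2 ^ K) ^ n.factorization q := by rw [← pow_mul, ← pow_mul, mul_comm]
        _ ≤ q ^ n.factorization q := Nat.pow_le_pow_left h _
  calc (∏ q ∈ n.primeFactors, (n.factorization q + 1)) ^ K
      = ∏ q ∈ n.primeFactors, (n.factorization q + 1) ^ K := by rw [Finset.prod_pow]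
    _ ≤ ∏ q ∈ n.primeFactors, (c q * q ^ n.factorization q) :=
        Finset.prod_le_prod' key
    _ = (∏ q ∈ n.primeFactors, c q) * ∏ q ∈ n.primeFactors, q ^ n.factorization q :=
        Finset.prod_mul_distrib
    _ = (∏ q ∈ n.primeFactors, c q) * n := by
        congr 1
        exact Nat.prod_factorization_pow_eq_self hn
    _ ≤ (K ^ K * 2) ^ (2 ^ K) * n := by
        apply Nat.mul_le_mul_right
        have : ∏ q ∈ n.primeFactors, c q
            = ∏ q ∈ n.primeFactors.filter (fun q => q < 2 ^ K), (K ^ K * 2) := by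
          rw [Finset.prod_filter]
        rw [this, Finset.prod_const]
        apply Nat.pow_le_pow_right hc0
        calc (n.primeFactors.filter (fun q => q < 2 ^ K)).card ≤ (Finset.range (2 ^ K)).card := by
              apply Finset.card_le_card
              intro q hq
              simp only [Finset.mem_filter] at hq
              exact Finset.mem_range.mpr hq.2
          _ = 2 ^ K := Finset.card_range _

/-- the divisor bound -/
theorem div_bound {δ : ℝ} (hδ : 0 < δ) : ∃ C : ℝ, 1 ≤ C ∧ ∀ n : ℕ, n ≠ 0 →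
    (n.divisors.card : ℝ) ≤ C * (n : ℝ) ^ δ := by
  obtain ⟨K0, hK0⟩ := exists_nat_gt (1 / δ)
  set K := K0 + 1 with hKdef
  have hK : 0 < K := by omega
  have hK' : (0 : ℝ) < K := by exact_mod_cast hK
  have hKδ : 1 / (K : ℝ) ≤ δ := by
    rw [div_le_iff₀ hK']
    rw [div_lt_iff₀ hδ] at hK0
    have : (K0 : ℝ) ≤ K := by exact_mod_cast (by omega : K0 ≤ K)
    nlinarith
  set c : ℕ := (K ^ K * 2) ^ (2 ^ K) with hc
  have hc1 : 1 ≤ c := by
    rw [hc]
    exact Nat.one_le_pow _ _ (by positivity)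
  have hc1' : (1 : ℝ) ≤ c := by exact_mod_cast hc1
  refine ⟨c, hc1', ?_⟩
  intro n hn
  have hn1 : 1 ≤ n := Nat.one_le_iff_ne_zero.2 hn
  have hn1' : (1 : ℝ) ≤ n := by exact_mod_cast hn1
  have h1 : ((n.divisors.card : ℝ)) ^ K ≤ c * n := by
    exact_mod_cast card_divisors_pow_le K hK n hn
  have h2 : (n.divisors.card : ℝ) ≤ (c * n : ℝ) ^ (1 / (K : ℝ)) := by
    have h3 := Real.rpow_le_rpow (by positivity) h1 (by positivity : (0 : ℝ) ≤ 1 / (K : ℝ))
    rwa [← Real.rpow_natCast, ← Real.rpow_mul (Nat.cast_nonneg _), mul_one_div_cancel hK'.ne',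
      Real.rpow_one] at h3
  refine h2.trans ?_
  rw [Real.mul_rpow (by positivity) (by positivity)]
  apply mul_le_mul
  · calc (c : ℝ) ^ (1 / (K : ℝ)) ≤ (c : ℝ) ^ (1 : ℝ) := by
          apply Real.rpow_le_rpow_of_exponent_le hc1'
          rw [div_le_one hK']
          exact_mod_cast hK
      _ = c := Real.rpow_one _
  · exact Real.rpow_le_rpow_of_exponent_le hn1' hKδ
  · positivity
  · positivity

end Pool.Agent.H505R2
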