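import Pool.Agent.H505R2.Triple

set_option autoImplicit false

namespace Pool.Agent.H505R2

open Finset

lemma card_primeFactors_bound {n W : ℕ} (hn : n ≠ 0) (h : n ≤ 2 ^ W) : n.primeFactors.card ≤ W := by
  have h1 : 2 ^ n.primeFactors.card ≤ ∏ p ∈ n.primeFactors, p := by
    rw [← prod_const]
    exact prod_le_prod' fun p hp => (Nat.prime_of_mem_primeFactors hp).two_le
  have h2 : ∏ p ∈ n.primeFactors, p ≤ n :=
    Nat.le_of_dvd (Nat.pos_of_ne_zero hn) (Nat.prod_primeFactors_dvd n)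
  exact (Nat.pow_le_pow_iff_right (by norm_num)).1 (h1.trans (h2.trans h))

/-- the base vectors -/
def gv (j u v : ℕ) : ℤ × ℤ := (36 * (u : ℤ) + j * (36 * (v : ℤ) + 1), 36 * (v : ℤ) + 1)

lemma gv_inj {j u v u' v' : ℕ} (h : gv j u v = gv j u' v') : u = u' ∧ v = v' := by
  unfold gv at h
  rw [Prod.mk.injEq] at h
  have h2 : v = v' := by omega
  subst h2
  refine ⟨?_, rfl⟩
  have := h.1
  omega

open Classical in
/-- base vectors for which the form has no small prime factor -/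
noncomputable def Gset (b c : ℤ) (j I V : ℕ) : Finset (ℕ × ℕ) :=
  ((range V) ×ˢ (Ioc 0 V)).filter (fun w => Sft I (qf b c (gv j w.2 w.1)) ∧
    IsCoprime (gv j w.2 w.1).1 (gv j w.2 w.1).2)

theorem row_count (b c : ℤ) (j I : ℕ) (hI : 10 ≤ I) (V W v : ℕ) (hv : v < V) (hW : 37 * V ≤ 2 ^ W)
    (hKV : 2 ^ (585 * 2 ^ I) ≤ V) (hWI : W * 2 ^ (93 * I + 4) ≤ 2 ^ 2 ^ I) :
    open Classical in
    (V : ℝ) / 2 ^ (93 * I + 2) ≤ (((Ioc 0 V).filter (fun u : ℕ => Sft I (qf b c (gv j u v)) ∧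
      IsCoprime (gv j u v).1 (gv j u v).2)).card : ℝ) := by
  classical
  obtain ⟨B0, hB0⟩ : ∃ B0 : ℤ, B0 = (72 * j + 36 * b) * (36 * v + 1) := ⟨_, rfl⟩
  obtain ⟨C0, hC0⟩ : ∃ C0 : ℤ, C0 = (j ^ 2 + b * j + c) * (36 * v + 1) ^ 2 := ⟨_, rfl⟩
  have h1 := sift_quad I (by omega) 1296 B0 C0 1296 B0 C0 (Sft_1296 I) (Sft_1296 I) V
  have e : ∀ u : ℕ, qf b c (gv j u v) = 1296 * (u : ℤ) ^ 2 + B0 * u + C0 := by
    intro u; rw [hB0, hC0]; unfold qf gv; simp only; ring
  have h2 : (Ioc 0 V).filter (fun n : ℕ => Sft I (1296 * (n : ℤ) ^ 2 + B0 * n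
      + C0) ∧ Sft I (1296 * (n : ℤ) ^ 2 + B0 * n
      + C0)) = (Ioc 0 V).filter (fun u : ℕ => Sft I (qf b c (gv j u v))) := by
    apply filter_congr
    intro u _
    rw [e u, and_self]
  rw [h2] at h1
  -- non coprime ones
  set n : ℕ := 36 * v + 1 with hn
  set P := n.primeFactors.filter (fun p => 2 ^ 2 ^ I < p) with hP
  have h3 : (Ioc 0 V).filter (fun u : ℕ => Sft I (qf b c (gv j u v))) ⊆
      (Ioc 0 V).filter (fun u : ℕ => Sft I (qf b c (gv j u v)) ∧
      IsCoprime (gv j u v).1 (gv j u v).2) ∪ P.biUnion (fun p => (Ioc 0 V).filter (fun u => p ∣ u)) := by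
    intro u hu
    rw [mem_filter] at hu
    rw [mem_union]
    by_cases hc : IsCoprime (gv j u v).1 (gv j u v).2
    · left
      rw [mem_filter]
      exact ⟨hu.1, hu.2, hc⟩
    · right
      rw [mem_biUnion]
      have hg : (gv j u v).1 = ((36 * u + j * n : ℕ) : ℤ) ∧ (gv j u v).2 = ((n : ℕ) : ℤ) := by
        unfold gv; simp only; rw [hn]; push_cast; exact ⟨rfl, rfl⟩
      rw [hg.1, hg.2, Nat.isCoprime_iff_coprime] at hc
      obtain ⟨p, hp, hp1', hp2⟩ := Nat.Prime.not_coprime_iff_dvd.1 hc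
      have hp1 : p ∣ 36 * u := (Nat.dvd_add_left (Dvd.dvd.mul_left hp2 j)).1 hp1'
      have hp36 : ¬ p ∣ 36 := by
        intro hd
        have h4 : p ∣ 36 * v := Dvd.dvd.mul_right hd v
        have h5 : p ∣ 1 := (Nat.dvd_add_right h4).1 hp2
        exact hp.one_lt.ne' (Nat.dvd_one.1 h5)
      have hpu : p ∣ u := (hp.dvd_mul.1 hp1).resolve_left hp36
      have hpbig : 2 ^ 2 ^ I < p := by
        by_contra hcon
        push Not at hcon
        have h5 : 5 ≤ p := by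
          have := hp.two_le
          by_contra h5
          push Not at h5
          interval_cases p
          · exact hp36 (by norm_num)
          · exact hp36 (by norm_num)
          · revert hp; norm_num
        apply hu.2 p (mem_SI.2 ⟨h5, hcon, hp⟩)
        have hx : (p : ℤ) ∣ (gv j u v).1 := by rw [hg.1]; exact_mod_cast hp1'
        have hy : (p : ℤ) ∣ (gv j u v).2 := by rw [hg.2]; exact_mod_cast hp2
        unfold qf
        apply dvd_add
        · apply dvd_add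
          · exact Dvd.dvd.pow hx (by norm_num)
          · exact Dvd.dvd.mul_left hy _
        · exact Dvd.dvd.mul_left (Dvd.dvd.pow hy (by norm_num)) _
      refine ⟨p, ?_, ?_⟩
      · rw [hP, mem_filter, Nat.mem_primeFactors]
        exact ⟨⟨hp, hp2, by omega⟩, hpbig⟩
      · rw [mem_filter]
        exact ⟨hu.1, hpu⟩
  have h4 : ((Ioc 0 V).filter (fun u : ℕ => Sft I (qf b c (gv j u v)))).card ≤
      ((Ioc 0 V).filter (fun u : ℕ => Sft I (qf b c (gv j u v)) ∧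
      IsCoprime (gv j u v).1 (gv j u v).2)).card + W * (V / 2 ^ 2 ^ I) := by
    refine (card_le_card h3).trans ((card_union_le _ _).trans ?_)
    apply Nat.add_le_add_left
    refine card_biUnion_le.trans ?_
    have h5 : ∀ p ∈ P, ((Ioc 0 V).filter (fun u => p ∣ u)).card ≤ V / 2 ^ 2 ^ I := by
      intro p hp
      rw [hP, mem_filter] at hp
      rw [Nat.Ioc_filter_dvd_card_eq_div]
      exact Nat.div_le_div_left hp.2.le (by positivity)
    refine (sum_le_card_nsmul _ _ _ h5).trans ?_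
    rw [smul_eq_mul]
    apply Nat.mul_le_mul_right
    refine (card_le_card (filter_subset _ _)).trans ?_
    apply card_primeFactors_bound (by omega)
    refine le_trans ?_ hW
    omega
  have h5 : (((Ioc 0 V).filter (fun u : ℕ => Sft I (qf b c (gv j u v)))).card : ℝ) ≤
      (((Ioc 0 V).filter (fun u : ℕ => Sft I (qf b c (gv j u v)) ∧
      IsCoprime (gv j u v).1 (gv j u v).2)).card : ℝ) + (V : ℝ) / 2 ^ (93 * I + 4) := by
    have h6 : ((W * (V / 2 ^ 2 ^ I) : ℕ) : ℝ) ≤ (V : ℝ) / 2 ^ (93 * I + 4) := by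
      rw [le_div_iff₀ (by positivity)]
      have h7 : W * (V / 2 ^ 2 ^ I) * 2 ^ (93 * I + 4) ≤ V := by
        calc W * (V / 2 ^ 2 ^ I) * 2 ^ (93 * I + 4) = (V / 2 ^ 2 ^ I) * (W * 2 ^ (93 * I + 4)) := by
              ring
          _ ≤ (V / 2 ^ 2 ^ I) * 2 ^ 2 ^ I := Nat.mul_le_mul_left _ hWI
          _ ≤ V := Nat.div_mul_le_self _ _
      exact_mod_cast h7
    have h7 : (((Ioc 0 V).filter (fun u : ℕ => Sft I (qf b c (gv j u v)))).card : ℝ) ≤
      ((((Ioc 0 V).filter (fun u : ℕ => Sft I (qf b c (gv j u v)) ∧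
      IsCoprime (gv j u v).1 (gv j u v).2)).card + W * (V / 2 ^ 2 ^ I) : ℕ) : ℝ) := by
      exact_mod_cast h4
    push_cast at h7 h6
    linarith
  have h6 : (2 : ℝ) ^ (582 * 2 ^ I) ≤ (V : ℝ) / 2 ^ (93 * I + 4) := by
    rw [le_div_iff₀ (by positivity), ← pow_add]
    have h7 : (2 : ℝ) ^ (585 * 2 ^ I) ≤ V := by exact_mod_cast hKV
    refine le_trans ?_ h7
    apply pow_le_pow_right₀ (by norm_num)
    have := pow_big I hI
    omega
  have h7 : (V : ℝ) / 2 ^ (93 * I + 1) ≤ (V : ℝ) * (Real.exp (-64) ^ I / 2) := by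
    have h8 := expI I
    rw [div_le_iff₀ (by positivity)]
    have h9 : (V : ℝ) * (Real.exp (-64) ^ I / 2) * 2 ^ (93 * I + 1)
        = V * (Real.exp (-64) ^ I * 2 ^ (93 * I)) := by rw [pow_succ]; ring
    rw [h9]
    have : (0 : ℝ) ≤ V := Nat.cast_nonneg V
    nlinarith
  have h8 : (V : ℝ) / 2 ^ (93 * I + 1) = 4 * ((V : ℝ) / 2 ^ (93 * I + 4)) * 2 := by
    rw [show 93 * I + 4 = (93 * I + 1) + 3 by ring, pow_add _ (93 * I + 1) 3]
    field_simp
    norm_num
  have h9 : (V : ℝ) / 2 ^ (93 * I + 2) = 4 * ((V : ℝ) / 2 ^ (93 * I + 4)) := by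
    rw [show 93 * I + 4 = (93 * I + 2) + 2 by ring, pow_add _ (93 * I + 2) 2]
    field_simp
    norm_num
  have h10 : 0 ≤ (V : ℝ) / 2 ^ (93 * I + 4) := by positivity
  rw [h9]
  linarith

theorem Gset_card (b c : ℤ) (j I : ℕ) (hI : 10 ≤ I) (V W : ℕ) (hW : 37 * V ≤ 2 ^ W)
    (hKV : 2 ^ (585 * 2 ^ I) ≤ V) (hWI : W * 2 ^ (93 * I + 4) ≤ 2 ^ 2 ^ I) :
    (V : ℝ) ^ 2 ≤ 2 ^ (584 * 2 ^ I) * ((Gset b c j I V).card : ℝ) := by
  classical
  have h1 : (Gset b c j I V).card = ∑ v ∈ range V, ((Ioc 0 V).filter (fun u : ℕ =>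
      Sft I (qf b c (gv j u v)) ∧ IsCoprime (gv j u v).1 (gv j u v).2)).card := by
    unfold Gset
    rw [card_filter, sum_product]
    apply sum_congr rfl
    intro v _
    rw [card_filter]
  have h2 : (V : ℝ) * ((V : ℝ) / 2 ^ (93 * I + 2)) ≤ ((Gset b c j I V).card : ℝ) := by
    rw [h1]
    push_cast
    calc (V : ℝ) * ((V : ℝ) / 2 ^ (93 * I + 2)) = ∑ v ∈ range V, (V : ℝ) / 2 ^ (93 * I + 2) := by
          rw [sum_const, card_range, nsmul_eq_mul]
      _ ≤ _ := sum_le_sum fun v hv => row_count b c j I hI V W v (mem_range.1 hv) hW hKV hWI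
  have h3 : (2 : ℝ) ^ (93 * I + 2) ≤ 2 ^ (584 * 2 ^ I) := by
    apply pow_le_pow_right₀ (by norm_num)
    have := pow_big I hI
    omega
  have h4 : (V : ℝ) ^ 2 = 2 ^ (93 * I + 2) * ((V : ℝ) * ((V : ℝ) / 2 ^ (93 * I + 2))) := by
    field_simp
  rw [h4]
  exact mul_le_mul h3 h2 (by positivity) (by positivity)

end Pool.Agent.H505R2
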