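import Pool.Agent.H505R2.Parity
import Pool.Agent.H505R2.Gammas
import Pool.Agent.H505R2.DivB

set_option autoImplicit false

namespace Pool.Agent.H505R2

open Finset

/-- finite version -/
theorem finite_version {b c t s s' m0 : ℤ} (j m : ℕ) (hm : 1 ≤ m) (hb : b = 0 ∨ b = 1)
    (hc : 1 ≤ c)
    (hj2 : ¬ (2 : ℤ) ∣ qf b c (j, 1)) (hj3 : ¬ (3 : ℤ) ∣ qf b c (j, 1))
    (ht2 : ¬ (2 : ℤ) ∣ qf b c (j * t - 1, t)) (ht3 : ¬ (3 : ℤ) ∣ qf b c (j * t - 1, t))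
    (hs : s * s' = 6) (hs0 : 0 < s)
    (hm0 : qf b c (j * t - 1 + m * j, t + m) = s * m0) (hm02 : ¬ (2 : ℤ) ∣ m0)
    (hm03 : ¬ (3 : ℤ) ∣ m0) (I : ℕ) (hI : 10 ≤ I) (V W X T C0 : ℕ) (hW : 37 * V ≤ 2 ^ W)
    (hKV : 2 ^ (585 * 2 ^ I) ≤ V) (hWI : W * 2 ^ (93 * I + 4) ≤ 2 ^ 2 ^ I)
    (hC0 : (1 + m + b + c) ^ 2 * 72 ^ 2 * (37 * (1 + j)) ^ 2 ≤ C0)
    (hX : C0 * 2 ^ (1168 * 2 ^ I) * V ^ 2 ≤ X)
    (hT : ∀ m' : ℕ, (m' = 1 ∨ m' = m) → ∀ N : ℕ, N ≤ X →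
      (fm b c m' (N : ℤ)).toNat.divisors.card ≤ T) :
    ∃ i < 2, ∃ l < 2,
      (V : ℝ) ^ 2 ≤ 2 ^ (584 * 2 ^ I) * (4 * (4 * m + 1) ^ 2 * T * ((TA b c 1 1 I X i).card : ℝ)) ∧
      (V : ℝ) ^ 2 ≤ 2 ^ (584 * 2 ^ I) * (4 * (4 * m + 1) ^ 2 * T * ((TA b c 1 s I X l).card : ℝ)) ∧
      (V : ℝ) ^ 2 ≤ 2 ^ (584 * 2 ^ I) *
        (4 * (4 * m + 1) ^ 2 * T * ((TA b c m s I X ((i + l) % 2)).card : ℝ)) := by
  classical
  have hbc : b ^ 2 < 4 * c := by rcases hb with rfl | rfl <;> nlinarith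
  have hb0 : 0 ≤ b := by rcases hb with rfl | rfl <;> norm_num
  have hcount := Gset_card b c j I hI V W hW hKV hWI
  set G := (Gset b c j I V).image (fun w => gv j w.2 w.1) with hG
  have hcard : G.card = (Gset b c j I V).card := by
    rw [hG]
    apply card_image_of_injective
    intro w w' h
    have := gv_inj h
    exact Prod.ext this.2 this.1
  have hprop : ∀ g ∈ G, ∃ u v : ℕ, g = gv j u v ∧ 0 < u ∧ u ≤ V ∧ v < V ∧ Sft I (qf b c g) ∧
      IsCoprime g.1 g.2 := by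
    intro g hg
    rw [hG, mem_image] at hg
    obtain ⟨w, hw, rfl⟩ := hg
    rw [Gset, mem_filter, mem_product, mem_range, mem_Ioc] at hw
    exact ⟨w.2, w.1, rfl, hw.1.2.1, hw.1.2.2, hw.1.1, hw.2.1, hw.2.2⟩
  have key := main_count m hm hb hc hj2 hj3 ht2 ht3 hs hs0 hm0 hm02 hm03 I hI G (by
    intro g hg
    obtain ⟨u, v, rfl, hu0, huV, hvV, h1, h2⟩ := hprop g hg
    refine ⟨h2, ⟨u, v, ?_, ?_⟩, h1, ?_⟩
    · unfold gv; simp only
    · unfold gv; simp only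
    · have h4 := four_qf (b := b) (c := c) (gv j u v)
      have hu1 : (1 : ℤ) ≤ u := by exact_mod_cast hu0
      have h5 : 0 ≤ (4 * c - b ^ 2) * (gv j u v).2 ^ 2 := mul_nonneg (by linarith) (sq_nonneg _)
      have h6 : (72 : ℤ) ≤ 2 * (gv j u v).1 + b * (gv j u v).2 := by
        unfold gv; simp only
        have h7 : 0 ≤ b * (36 * (v : ℤ) + 1) := by positivity
        have h8 : 0 ≤ (j : ℤ) * (36 * (v : ℤ) + 1) := by positivity
        linarith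
      nlinarith) X T (by
    intro g hg
    obtain ⟨u, v, rfl, hu0, huV, hvV, h1, h2⟩ := hprop g hg
    have huV' : (u : ℤ) ≤ V := by exact_mod_cast huV
    have hvV' : (v : ℤ) + 1 ≤ V := by exact_mod_cast hvV
    have hu0' : (0 : ℤ) ≤ u := by positivity
    have hv0' : (0 : ℤ) ≤ v := by positivity
    have hj0 : (0 : ℤ) ≤ j := by positivity
    have hV0 : (0 : ℤ) ≤ V := by positivity
    have e2 : 0 ≤ (gv j u v).2 ∧ (gv j u v).2 ≤ 37 * V := by unfold gv; simp only; omega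
    have e3 : (j : ℤ) * (36 * (v : ℤ) + 1) ≤ j * (37 * V) :=
      mul_le_mul_of_nonneg_left (by unfold gv at e2; simp only at e2; exact e2.2) hj0
    have e4 : 0 ≤ (j : ℤ) * (36 * (v : ℤ) + 1) := by positivity
    have e1 : 0 ≤ (gv j u v).1 ∧ (gv j u v).1 ≤ 37 * (1 + j) * V := by
      unfold gv; simp only
      constructor
      · linarith
      · nlinarith
    have e5 : (gv j u v).2 ≤ 37 * (1 + j) * V := by nlinarith
    obtain ⟨K, hK⟩ : ∃ K : ℤ, K = 2 ^ (584 * 2 ^ I) := ⟨_, rfl⟩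
    have hK1 : 1 ≤ K := by rw [hK]; exact one_le_pow₀ (by norm_num)
    set Y : ℤ := 37 * (1 + j) * V with hY
    have hqle : qf b c (gv j u v) ≤ (1 + b + c) * Y ^ 2 := by
      unfold qf
      have f1 : (gv j u v).1 ^ 2 ≤ Y ^ 2 := pow_le_pow_left₀ e1.1 e1.2 2
      have f2 : (gv j u v).2 ^ 2 ≤ Y ^ 2 := pow_le_pow_left₀ e2.1 e5 2
      have f3 : (gv j u v).1 * (gv j u v).2 ≤ Y * Y :=
        mul_le_mul e1.2 e5 e2.1 (by positivity)
      have f4 : b * ((gv j u v).1 * (gv j u v).2) ≤ b * (Y * Y) :=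
        mul_le_mul_of_nonneg_left f3 hb0
      have f5 : c * (gv j u v).2 ^ 2 ≤ c * Y ^ 2 :=
        mul_le_mul_of_nonneg_left f2 (by linarith)
      nlinarith
    have hR : (36 * K + 36) ^ 2 ≤ (72 * K) ^ 2 := pow_le_pow_left₀ (by linarith) (by linarith) 2
    have hq0 : 0 ≤ qf b c (gv j u v) := qf_nonneg hbc _
    have hm0' : (0 : ℤ) ≤ m := by positivity
    rw [← hK]
    calc (1 + m + b + c) * (36 * K + 36) ^ 2 * qf b c (gv j u v)
        ≤ (1 + m + b + c) * (72 * K) ^ 2 * ((1 + m + b + c) * Y ^ 2) := by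
          apply mul_le_mul
          · exact mul_le_mul_of_nonneg_left hR (by linarith)
          · refine hqle.trans ?_
            exact mul_le_mul_of_nonneg_right (by linarith) (sq_nonneg _)
          · exact hq0
          · have : 0 ≤ 1 + m + b + c := by linarith
            positivity
      _ = ((1 + m + b + c) ^ 2 * 72 ^ 2 * (37 * (1 + j)) ^ 2) * (K ^ 2 * V ^ 2) := by
          rw [hY]; ring
      _ ≤ C0 * (K ^ 2 * V ^ 2) := mul_le_mul_of_nonneg_right hC0 (by positivity)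
      _ = ((C0 * 2 ^ (1168 * 2 ^ I) * V ^ 2 : ℕ) : ℤ) := by
          push_cast
          rw [hK, ← pow_mul, show 584 * 2 ^ I * 2 = 1168 * 2 ^ I by ring]
          ring
      _ ≤ X := by exact_mod_cast hX) hT
  have hKpos : (0 : ℝ) < 2 ^ (584 * 2 ^ I) := by positivity
  have conv : ∀ S : ℕ, G.card ≤ 4 * (4 * m + 1) ^ 2 * T * S →
      (V : ℝ) ^ 2 ≤ 2 ^ (584 * 2 ^ I) * (4 * (4 * m + 1) ^ 2 * T * (S : ℝ)) := by
    intro S h
    refine hcount.trans ?_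
    apply mul_le_mul_of_nonneg_left _ hKpos.le
    rw [← hcard]
    have : ((G.card : ℕ) : ℝ) ≤ ((4 * (4 * m + 1) ^ 2 * T * S : ℕ) : ℝ) := by exact_mod_cast h
    push_cast at this
    exact this
  obtain ⟨i, hi, l, hl, h1, h2, h3⟩ := key
  exact ⟨i, hi, l, hl, conv _ h1, conv _ h2, conv _ h3⟩

end Pool.Agent.H505R2
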