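import Mathlib

/-!
Binary quadratic forms `x ^ 2 + b x y + c y ^ 2` and the identity
`qf x * qf y = fp (ip x y)` for vectors with determinant one.
-/

set_option autoImplicit false

namespace Pool.Agent.H505R2

open Finset

/-- the form -/
def qf (b c : ℤ) (x : ℤ × ℤ) : ℤ := x.1 ^ 2 + b * x.1 * x.2 + c * x.2 ^ 2

/-- determinant -/
def dt (x y : ℤ × ℤ) : ℤ := x.1 * y.2 - x.2 * y.1

/-- rational part of `conj x * y` -/
def ip (b c : ℤ) (x y : ℤ × ℤ) : ℤ := x.1 * y.1 + b * x.2 * y.1 + c * x.2 * y.2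

/-- the polynomial `N ^ 2 + b m N + c m ^ 2` -/
def fm (b c m N : ℤ) : ℤ := N ^ 2 + b * m * N + c * m ^ 2

variable {b c : ℤ}

lemma qf_mul (x y : ℤ × ℤ) :
    qf b c x * qf b c y = (ip b c x y) ^ 2 + b * ip b c x y * dt x y + c * (dt x y) ^ 2 := by
  unfold qf ip dt; ring

lemma qf_mul_det {x y : ℤ × ℤ} {m : ℤ} (h : dt x y = m) :
    qf b c x * qf b c y = fm b c m (ip b c x y) := by
  rw [qf_mul, h]; unfold fm; ring

lemma four_qf (x : ℤ × ℤ) :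
    4 * qf b c x = (2 * x.1 + b * x.2) ^ 2 + (4 * c - b ^ 2) * x.2 ^ 2 := by
  unfold qf; ring

lemma qf_nonneg (hbc : b ^ 2 < 4 * c) (x : ℤ × ℤ) : 0 ≤ qf b c x := by
  have h := four_qf (b := b) (c := c) x
  have h1 : 0 ≤ (4 * c - b ^ 2) * x.2 ^ 2 := mul_nonneg (by linarith) (sq_nonneg _)
  nlinarith [sq_nonneg (2 * x.1 + b * x.2)]

lemma fm_pos (hbc : b ^ 2 < 4 * c) {m : ℤ} (hm : 1 ≤ m) (N : ℤ) : 0 < fm b c m N := by
  have h1 : 4 * fm b c m N = (2 * N + b * m) ^ 2 + (4 * c - b ^ 2) * m ^ 2 := by unfold fm; ring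
  have h2 : 0 < (4 * c - b ^ 2) * m ^ 2 := mul_pos (by linarith) (by positivity)
  nlinarith [sq_nonneg (2 * N + b * m)]

lemma qf_pos (hbc : b ^ 2 < 4 * c) {x y : ℤ × ℤ} {m : ℤ} (hm : 1 ≤ m) (h : dt x y = m) :
    0 < qf b c x ∧ 0 < qf b c y := by
  have h1 := qf_mul_det (b := b) (c := c) h
  have h2 := fm_pos hbc hm (ip b c x y)
  have hx := qf_nonneg hbc x
  have hy := qf_nonneg hbc y
  constructor
  · rcases hx.lt_or_eq with h3 | h3
    · exact h3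
    · rw [← h3] at h1; simp at h1; omega
  · rcases hy.lt_or_eq with h3 | h3
    · exact h3
    · rw [← h3] at h1; simp at h1; omega

/-- the two linear relations between `x`, `y` and `N` -/
lemma rel {x y : ℤ × ℤ} {m : ℤ} (h : dt x y = m) :
    qf b c x * y.1 = ip b c x y * x.1 - c * m * x.2 ∧
    qf b c x * y.2 = m * x.1 + (ip b c x y + b * m) * x.2 := by
  unfold qf ip dt at *
  constructor
  · linear_combination (-c * x.2) * h
  · linear_combination (x.1 + b * x.2) * h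

/-- elements of norm `m ^ 2` -/
lemma unit_range (hb : b = 0 ∨ b = 1) (hc : 1 ≤ c) {m s t : ℤ} (hm : 1 ≤ m)
    (h : s ^ 2 + b * s * t + c * t ^ 2 = m ^ 2) :
    s ∈ Icc (-(2 * m)) (2 * m) ∧ t ∈ Icc (-(2 * m)) (2 * m) := by
  rw [mem_Icc, mem_Icc]
  have h4 : (2 * s + b * t) ^ 2 + (4 * c - b ^ 2) * t ^ 2 = 4 * m ^ 2 := by linear_combination 4 * h
  have hb2 : b ^ 2 ≤ 1 := by rcases hb with rfl | rfl <;> norm_num
  have ht : t ^ 2 ≤ (2 * m) ^ 2 := by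
    have h2 : 1 * t ^ 2 ≤ (4 * c - b ^ 2) * t ^ 2 :=
      mul_le_mul_of_nonneg_right (by linarith) (sq_nonneg t)
    nlinarith [sq_nonneg (2 * s + b * t)]
  have hs : s ^ 2 ≤ (2 * m) ^ 2 := by
    have h5 : (b * s + 2 * c * t) ^ 2 + (4 * c - b ^ 2) * s ^ 2 = 4 * c * m ^ 2 := by
      linear_combination 4 * c * h
    have h6 : (4 * c - b ^ 2) * s ^ 2 ≤ 4 * c * m ^ 2 := by
      nlinarith [sq_nonneg (b * s + 2 * c * t)]
    have h7 : 3 * c ≤ 4 * c - b ^ 2 := by linarith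
    have h8 : 3 * c * s ^ 2 ≤ 4 * c * m ^ 2 :=
      (mul_le_mul_of_nonneg_right h7 (sq_nonneg s)).trans h6
    have h9 : c * (3 * s ^ 2) ≤ c * (4 * m ^ 2) := by linarith
    have h10 := le_of_mul_le_mul_left h9 (by linarith)
    nlinarith [sq_nonneg m]
  have hm2 : 0 ≤ 2 * m := by linarith
  exact ⟨abs_le.1 (abs_le_of_sq_le_sq hs hm2), abs_le.1 (abs_le_of_sq_le_sq ht hm2)⟩

/-- pairs with a given inner product and first norm -/
lemma fiber_card (hb : b = 0 ∨ b = 1) (hc : 1 ≤ c) (m : ℕ) (hm : 1 ≤ m) (N q : ℤ) (hq : 0 < q)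
    (F : Finset ((ℤ × ℤ) × (ℤ × ℤ)))
    (hF : ∀ w ∈ F, dt w.1 w.2 = m ∧ ip b c w.1 w.2 = N ∧ qf b c w.1 = q) :
    F.card ≤ (4 * m + 1) ^ 2 := by
  classical
  rcases F.eq_empty_or_nonempty with rfl | ⟨w0, hw0⟩
  · simp
  have hmZ : (1 : ℤ) ≤ m := by exact_mod_cast hm
  have hm0 : (m : ℤ) ≠ 0 := by omega
  obtain ⟨h01, h02, h03⟩ := hF w0 hw0
  have key : ∀ w ∈ F, m * ip b c w0.1 w.1 = q * (w.1.1 * w0.2.2 - w0.1.2 * w.2.1) ∧
      m * dt w0.1 w.1 = q * (w0.2.2 * w.1.2 - w0.1.2 * w.2.2) := by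
    intro w hw
    obtain ⟨h1, h2, h3⟩ := hF w hw
    obtain ⟨e1, e2⟩ := rel (b := b) (c := c) h1
    obtain ⟨e3, e4⟩ := rel (b := b) (c := c) h01
    rw [h2, h3] at e1 e2
    rw [h02, h03] at e3 e4
    unfold ip dt
    constructor
    · linear_combination (-w.1.1) * e4 + w0.1.2 * e1
    · linear_combination (-w.1.2) * e4 + w0.1.2 * e2
  have hcard : (Icc (-(2 * (m : ℤ))) (2 * m) ×ˢ Icc (-(2 * (m : ℤ))) (2 * m)).card
      = (4 * m + 1) ^ 2 := by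
    rw [card_product, Int.card_Icc]
    have : (2 * (m : ℤ) + 1 - -(2 * (m : ℤ))).toNat = 4 * m + 1 := by omega
    rw [this, sq]
  rw [← hcard]
  apply Finset.card_le_card_of_injOn
    (fun w => (w.1.1 * w0.2.2 - w0.1.2 * w.2.1, w0.2.2 * w.1.2 - w0.1.2 * w.2.2))
  · intro w hw
    rw [mem_coe] at hw
    obtain ⟨h1, h2, h3⟩ := hF w hw
    obtain ⟨k1, k2⟩ := key w hw
    have hm' := qf_mul (b := b) (c := c) w0.1 w.1
    rw [h03, h3] at hm'
    have hm2 : q ^ 2 * ((w.1.1 * w0.2.2 - w0.1.2 * w.2.1) ^ 2 +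
        b * (w.1.1 * w0.2.2 - w0.1.2 * w.2.1) * (w0.2.2 * w.1.2 - w0.1.2 * w.2.2) +
        c * (w0.2.2 * w.1.2 - w0.1.2 * w.2.2) ^ 2) = q ^ 2 * (m : ℤ) ^ 2 := by
      have a1 : (q * (w.1.1 * w0.2.2 - w0.1.2 * w.2.1)) ^ 2 +
          b * (q * (w.1.1 * w0.2.2 - w0.1.2 * w.2.1)) * (q * (w0.2.2 * w.1.2 - w0.1.2 * w.2.2)) +
          c * (q * (w0.2.2 * w.1.2 - w0.1.2 * w.2.2)) ^ 2 = (m : ℤ) ^ 2 * (q * q) := by
        rw [← k1, ← k2, hm']; ring
      linear_combination a1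
    have hm3 := mul_left_cancel₀ (pow_ne_zero 2 hq.ne') hm2
    have := unit_range hb hc hmZ hm3
    rw [mem_coe, mem_product]
    exact this
  · intro w hw w' hw' he
    rw [mem_coe] at hw hw'
    simp only [Prod.mk.injEq] at he
    obtain ⟨he1, he2⟩ := he
    obtain ⟨h1, h2, h3⟩ := hF w hw
    obtain ⟨h1', h2', h3'⟩ := hF w' hw'
    obtain ⟨k1, k2⟩ := key w hw
    obtain ⟨k1', k2'⟩ := key w' hw'
    have hB : ip b c w0.1 w.1 = ip b c w0.1 w'.1 := by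
      apply mul_left_cancel₀ hm0
      rw [k1, k1', he1]
    have hD : dt w0.1 w.1 = dt w0.1 w'.1 := by
      apply mul_left_cancel₀ hm0
      rw [k2, k2', he2]
    have r1 : ∀ v : (ℤ × ℤ), q * v.1 = w0.1.1 * ip b c w0.1 v - c * w0.1.2 * dt w0.1 v := by
      intro v
      rw [← h03]; unfold qf ip dt; ring
    have r2 : ∀ v : (ℤ × ℤ), q * v.2 = w0.1.2 * ip b c w0.1 v + (w0.1.1 + b * w0.1.2) * dt w0.1 v
        - b * w0.1.2 * 0 := by
      intro v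
      rw [← h03]; unfold qf ip dt; ring
    have x1 : w.1.1 = w'.1.1 := by
      apply mul_left_cancel₀ hq.ne'
      rw [r1, r1, hB, hD]
    have x2 : w.1.2 = w'.1.2 := by
      apply mul_left_cancel₀ hq.ne'
      rw [r2, r2, hB, hD]
    obtain ⟨e1, e2⟩ := rel (b := b) (c := c) h1
    obtain ⟨e1', e2'⟩ := rel (b := b) (c := c) h1'
    rw [h2, h3] at e1 e2
    rw [h2', h3'] at e1' e2'
    have y1 : w.2.1 = w'.2.1 := by
      apply mul_left_cancel₀ hq.ne'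
      rw [e1, e1', x1, x2]
    have y2 : w.2.2 = w'.2.2 := by
      apply mul_left_cancel₀ hq.ne'
      rw [e2, e2', x1, x2]
    exact Prod.ext (Prod.ext x1 x2) (Prod.ext y1 y2)

/-- pairs with a given inner product -/
lemma pairs_card (hb : b = 0 ∨ b = 1) (hc : 1 ≤ c) (m : ℕ) (hm : 1 ≤ m) (N : ℤ)
    (F : Finset ((ℤ × ℤ) × (ℤ × ℤ)))
    (hF : ∀ w ∈ F, dt w.1 w.2 = m ∧ ip b c w.1 w.2 = N) :
    F.card ≤ (4 * m + 1) ^ 2 * (fm b c m N).toNat.divisors.card := by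
  classical
  have hbc : b ^ 2 < 4 * c := by
    rcases hb with rfl | rfl <;> nlinarith
  have hmZ : (1 : ℤ) ≤ m := by exact_mod_cast hm
  have hfp := fm_pos hbc hmZ N
  have hmap : ∀ w ∈ F, (qf b c w.1).toNat ∈ (fm b c m N).toNat.divisors := by
    intro w hw
    obtain ⟨h1, h2⟩ := hF w hw
    obtain ⟨p1, p2⟩ := qf_pos hbc hmZ h1
    have h3 := qf_mul_det (b := b) (c := c) h1
    rw [h2] at h3
    rw [Nat.mem_divisors]
    refine ⟨⟨(qf b c w.2).toNat, ?_⟩, by omega⟩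
    rw [← h3, Int.toNat_mul p1.le p2.le]
  rw [Finset.card_eq_sum_card_fiberwise hmap]
  calc ∑ q ∈ (fm b c m N).toNat.divisors, (F.filter (fun w => (qf b c w.1).toNat = q)).card
      ≤ ∑ q ∈ (fm b c m N).toNat.divisors, (4 * m + 1) ^ 2 := by
        apply sum_le_sum
        intro q hq
        have hq0 : 0 < q := Nat.pos_of_mem_divisors hq
        apply fiber_card hb hc m hm N (q : ℤ) (by exact_mod_cast hq0)
        intro w hw
        rw [mem_filter] at hw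
        obtain ⟨h1, h2⟩ := hF w hw.1
        refine ⟨h1, h2, ?_⟩
        have := (qf_pos hbc hmZ h1).1
        omega
    _ = (4 * m + 1) ^ 2 * (fm b c m N).toNat.divisors.card := by
        rw [sum_const, smul_eq_mul, mul_comm]

/-- number of roots of a quadratic modulo a prime -/
lemma roots_le_two (p : ℕ) (hp : p.Prime) (A B C : ℤ) (hA : ¬ (p : ℤ) ∣ A) :
    ((range p).filter (fun r : ℕ => (p : ℤ) ∣ A * (r : ℤ) ^ 2 + B * r + C)).card ≤ 2 := by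
  by_contra hcon
  push Not at hcon
  obtain ⟨r, s, t, hr, hs, ht, hrs, hrt, hst⟩ := Finset.two_lt_card_iff.1 hcon
  rw [mem_filter, mem_range] at hr hs ht
  have hpZ : Prime (p : ℤ) := Nat.prime_iff_prime_int.1 hp
  have hne : ∀ m n : ℕ, m < p → n < p → m ≠ n → ¬ (p : ℤ) ∣ ((m : ℤ) - n) := by
    intro m n hm hn hmn hd
    have h1 : ((m : ℤ) - n).natAbs < p := by omega
    have h2 := Int.natAbs_dvd_natAbs.2 hd
    rw [Int.natAbs_natCast] at h2
    have h3 : ((m : ℤ) - n).natAbs ≠ 0 := by omega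
    exact absurd (Nat.le_of_dvd (Nat.pos_of_ne_zero h3) h2) (by omega)
  have e1 : (p : ℤ) ∣ A * ((r : ℤ) + s) + B := by
    have h1 : (p : ℤ) ∣ ((r : ℤ) - s) * (A * ((r : ℤ) + s) + B) := by
      have h0 := dvd_sub hr.2 hs.2
      have e : (A * (r : ℤ) ^ 2 + B * r + C) - (A * (s : ℤ) ^ 2 + B * s + C)
          = ((r : ℤ) - s) * (A * ((r : ℤ) + s) + B) := by ring
      rwa [e] at h0
    rcases hpZ.dvd_or_dvd h1 with h | h
    · exact absurd h (hne r s hr.1 hs.1 hrs)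
    · exact h
  have e2 : (p : ℤ) ∣ A * ((r : ℤ) + t) + B := by
    have h1 : (p : ℤ) ∣ ((r : ℤ) - t) * (A * ((r : ℤ) + t) + B) := by
      have h0 := dvd_sub hr.2 ht.2
      have e : (A * (r : ℤ) ^ 2 + B * r + C) - (A * (t : ℤ) ^ 2 + B * t + C)
          = ((r : ℤ) - t) * (A * ((r : ℤ) + t) + B) := by ring
      rwa [e] at h0
    rcases hpZ.dvd_or_dvd h1 with h | h
    · exact absurd h (hne r t hr.1 ht.1 hrt)
    · exact h
  have e3 : (p : ℤ) ∣ A * ((s : ℤ) - t) := by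
    have h0 := dvd_sub e1 e2
    have e : (A * ((r : ℤ) + s) + B) - (A * ((r : ℤ) + t) + B) = A * ((s : ℤ) - t) := by ring
    rwa [e] at h0
  rcases hpZ.dvd_or_dvd e3 with h | h
  · exact hA h
  · exact hne s t hs.1 ht.1 hst h

lemma quad_mod (p : ℕ) (A B C : ℤ) (n : ℕ) :
    (p : ℤ) ∣ A * ((n % p : ℕ) : ℤ) ^ 2 + B * ((n % p : ℕ) : ℤ) + C ↔
      (p : ℤ) ∣ A * (n : ℤ) ^ 2 + B * n + C := by
  have h : (n : ℤ) = ((n % p : ℕ) : ℤ) + p * ((n / p : ℕ) : ℤ) := by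
    have := Nat.mod_add_div n p
    exact_mod_cast this.symm
  rw [h]
  set r : ℤ := ((n % p : ℕ) : ℤ)
  set k : ℤ := ((n / p : ℕ) : ℤ)
  have e : A * (r + p * k) ^ 2 + B * (r + p * k) + C
      = (A * r ^ 2 + B * r + C) + p * (A * (2 * r * k + p * k ^ 2) + B * k) := by ring
  rw [e]
  exact (dvd_add_left (Dvd.intro _ rfl)).symm

end Pool.Agent.H505R2
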