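import Pool.Agent.H505R2.Core

set_option autoImplicit false

namespace Pool.Agent.H505R2

open Finset Filter

lemma pow_len_le (y : ℝ) (hy : 0 ≤ y) : ∀ l : List ℕ, (∀ p ∈ l, y ≤ (p : ℝ)) →
    y ^ l.length ≤ ((l.prod : ℕ) : ℝ)
  | [], _ => by simp
  | a :: l, h => by
    rw [List.length_cons, List.prod_cons, pow_succ', Nat.cast_mul]
    apply mul_le_mul (h a (by simp)) (pow_len_le y hy l (fun p hp => h p (by simp [hp])))
      (by positivity) (by positivity)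

lemma len_le {X M : ℕ} {δ : ℝ} (hX : 2 ≤ X) (hM : M ≠ 0) (hMX : (M : ℝ) ≤ (X : ℝ) ^ 3)
    (hδ : 0 < δ) (h : ∀ p : ℕ, p.Prime → p ∣ M → (X : ℝ) ^ δ < p) :
    M.primeFactorsList.length ≤ ⌈3 / δ⌉₊ := by
  have hX1 : (1 : ℝ) < X := by exact_mod_cast (by omega : 1 < X)
  have h1 := pow_len_le ((X : ℝ) ^ δ) (by positivity) M.primeFactorsList (fun p hp =>
    (h p (Nat.prime_of_mem_primeFactorsList hp) (Nat.dvd_of_mem_primeFactorsList hp)).le)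
  rw [Nat.prod_primeFactorsList hM] at h1
  have h2 := h1.trans hMX
  rw [← Real.rpow_natCast, ← Real.rpow_mul (by positivity), ← Real.rpow_natCast] at h2
  have h3 := (Real.rpow_le_rpow_left_iff hX1).1 h2
  have h4 : (M.primeFactorsList.length : ℝ) ≤ 3 / δ := by
    rw [le_div_iff₀ hδ]
    push_cast at h3
    linarith
  exact_mod_cast h4.trans (Nat.le_ceil _)

/-- integers `N ≤ X` with `N ^ 2 + b m N + c m ^ 2 = s * M`, where `M > 1` is a product of at most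
`r` primes, all larger than `X ^ δ`, their number being congruent to `e` modulo `2` -/
def SS (b c m s : ℤ) (δ : ℝ) (r X e : ℕ) : Set ℕ :=
  {N : ℕ | N ≤ X ∧ ∃ M : ℕ, fm b c m (N : ℤ) = s * M ∧ 1 < M ∧ M.primeFactorsList.length % 2 = e ∧
    M.primeFactorsList.length ≤ r ∧ ∀ p : ℕ, p.Prime → p ∣ M → (X : ℝ) ^ δ < p}

lemma SS_finite (b c m s : ℤ) (δ : ℝ) (r X e : ℕ) : (SS b c m s δ r X e).Finite :=
  (Set.finite_Iic X).subset fun _ hN => hN.1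

lemma ta_le {b c m s : ℤ} (hb : 0 ≤ b) (hc : 0 ≤ c) (hm : 0 ≤ m) (hs : 1 ≤ s) {δ : ℝ} (hδ : 0 < δ)
    {I X e : ℕ} (hX : 2 ≤ X) (hX2 : 1 + b * m + c * m ^ 2 ≤ X) (hI : (X : ℝ) ^ δ < 2 ^ 2 ^ I) :
    ((TA b c m s I X e).card : ℝ) ≤ ((SS b c m s δ ⌈3 / δ⌉₊ X e).ncard : ℝ) := by
  classical
  rw [← Set.ncard_coe_finset]
  have hsub : ((TA b c m s I X e : Finset ℕ) : Set ℕ) ⊆ SS b c m s δ ⌈3 / δ⌉₊ X e := by
    intro N hN
    rw [mem_coe, TA, mem_filter, mem_range] at hN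
    obtain ⟨hNX, M, h1, h2, h3, h4⟩ := hN
    have hlarge : ∀ p : ℕ, p.Prime → p ∣ M → (X : ℝ) ^ δ < p := by
      intro p hp hd
      have h5 := h3 p hp hd
      have h6 : ((2 ^ 2 ^ I : ℕ) : ℝ) < p := by exact_mod_cast h5
      push_cast at h6
      exact hI.trans h6
    have hNX' : (N : ℤ) ≤ X := by exact_mod_cast (Nat.lt_succ_iff.1 hNX)
    have hN0 : (0 : ℤ) ≤ N := by positivity
    have hX1 : (1 : ℤ) ≤ X := by exact_mod_cast (by omega : 1 ≤ X)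
    have h7 : (M : ℤ) ≤ (X : ℤ) ^ 3 := by
      have h8 : (M : ℤ) ≤ s * M := by nlinarith
      rw [← h1] at h8
      refine h8.trans ?_
      have h9 : fm b c m (N : ℤ) ≤ (1 + b * m + c * m ^ 2) * (X : ℤ) ^ 2 := by
        unfold fm
        have h5 : (N : ℤ) ^ 2 ≤ (X : ℤ) ^ 2 := pow_le_pow_left₀ hN0 hNX' 2
        have h6 : (N : ℤ) ≤ (X : ℤ) ^ 2 := by nlinarith
        have h7 : (1 : ℤ) ≤ (X : ℤ) ^ 2 := one_le_pow₀ hX1
        have h8 : b * m * N ≤ b * m * (X : ℤ) ^ 2 := mul_le_mul_of_nonneg_left h6 (by positivity)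
        have h9 : c * m ^ 2 * 1 ≤ c * m ^ 2 * (X : ℤ) ^ 2 :=
          mul_le_mul_of_nonneg_left h7 (by positivity)
        nlinarith
      calc fm b c m (N : ℤ) ≤ (1 + b * m + c * m ^ 2) * (X : ℤ) ^ 2 := h9
        _ ≤ (X : ℤ) * (X : ℤ) ^ 2 := mul_le_mul_of_nonneg_right hX2 (by positivity)
        _ = (X : ℤ) ^ 3 := by ring
    have h8 : (M : ℝ) ≤ (X : ℝ) ^ 3 := by exact_mod_cast h7
    exact ⟨Nat.lt_succ_iff.1 hNX, M, h1, h2, h4, len_le hX (by omega) h8 hδ hlarge, hlarge⟩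
  exact_mod_cast Set.ncard_le_ncard hsub (SS_finite _ _ _ _ _ _ _ _)

/-- main theorem in terms of counting functions -/
theorem core2 {b c t s s' m0 : ℤ} (j m : ℕ) (hm : 1 ≤ m) (hb : b = 0 ∨ b = 1) (hc : 1 ≤ c)
    (hj2 : ¬ (2 : ℤ) ∣ qf b c (j, 1)) (hj3 : ¬ (3 : ℤ) ∣ qf b c (j, 1))
    (ht2 : ¬ (2 : ℤ) ∣ qf b c (j * t - 1, t)) (ht3 : ¬ (3 : ℤ) ∣ qf b c (j * t - 1, t))
    (hs : s * s' = 6) (hs0 : 0 < s)
    (hm0 : qf b c (j * t - 1 + m * j, t + m) = s * m0) (hm02 : ¬ (2 : ℤ) ∣ m0)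
    (hm03 : ¬ (3 : ℤ) ∣ m0) (ε : ℝ) (hε : 0 < ε) :
    ∃ δ : ℝ, 0 < δ ∧ ∃ r X₀ : ℕ, ∀ X : ℕ, X₀ ≤ X → ∃ i < 2, ∃ l < 2,
      (X : ℝ) ^ (1 - ε) ≤ ((SS b c 1 1 δ r X i).ncard : ℝ) ∧
      (X : ℝ) ^ (1 - ε) ≤ ((SS b c 1 s δ r X l).ncard : ℝ) ∧
      (X : ℝ) ^ (1 - ε) ≤ ((SS b c m s δ r X ((i + l) % 2)).ncard : ℝ) := by
  obtain ⟨δ, hδ, h⟩ := core j m hm hb hc hj2 hj3 ht2 ht3 hs hs0 hm0 hm02 hm03 ε hε
  have h2 := h.and ((eventually_ge_atTop 2).and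
    (eventually_ge_atTop (1 + b * m + c * m ^ 2).toNat))
  rw [eventually_atTop] at h2
  obtain ⟨X₀, hX₀⟩ := h2
  refine ⟨δ, hδ, ⌈3 / δ⌉₊, X₀, fun X hX => ?_⟩
  obtain ⟨⟨I, hI, i, hi, l, hl, h3, h4, h5⟩, hX2, hX3⟩ := hX₀ X hX
  have hb0 : 0 ≤ b := by rcases hb with rfl | rfl <;> norm_num
  have hmZ : (1 : ℤ) ≤ m := by exact_mod_cast hm
  have hX3' : 1 + b * m + c * m ^ 2 ≤ (X : ℤ) := by
    have := Int.self_le_toNat (1 + b * m + c * m ^ 2)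
    have h3 : (((1 + b * m + c * m ^ 2).toNat : ℕ) : ℤ) ≤ (X : ℤ) := by exact_mod_cast hX3
    linarith
  have hX4 : 1 + b * 1 + c * 1 ^ 2 ≤ (X : ℤ) := by
    have h6 : b * 1 ≤ b * m := mul_le_mul_of_nonneg_left hmZ hb0
    have h7 : c * 1 ^ 2 ≤ c * (m : ℤ) ^ 2 :=
      mul_le_mul_of_nonneg_left (pow_le_pow_left₀ (by norm_num) hmZ 2) (by linarith)
    linarith
  exact ⟨i, hi, l, hl,
    h3.trans (ta_le hb0 (by linarith) (by norm_num) le_rfl hδ hX2 hX4 hI),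
    h4.trans (ta_le hb0 (by linarith) (by norm_num) hs0 hδ hX2 hX4 hI),
    h5.trans (ta_le hb0 (by linarith) (by linarith) hs0 hδ hX2 hX3' hI)⟩

end Pool.Agent.H505R2
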