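import Pool.Agent.H505R2.Triple

set_option autoImplicit false

namespace Pool.Agent.H505R2

open Finset

/-- all prime factors are large -/
def Lg (I m : ℕ) : Prop := ∀ p : ℕ, p.Prime → p ∣ m → 2 ^ 2 ^ I < p

open Classical in
/-- integers `N ≤ X` with `N ^ 2 + b m N + c m ^ 2 = s * M`, `M` free of small primes, with given
parity of the number of prime factors -/
noncomputable def TA (b c m s : ℤ) (I X e : ℕ) : Finset ℕ :=
  (range (X + 1)).filter (fun N : ℕ => ∃ M : ℕ, fm b c m (N : ℤ) = s * M ∧ 1 < M ∧ Lg I M ∧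
    M.primeFactorsList.length % 2 = e)

lemma lg_of_sft {I : ℕ} {n : ℤ} (h0 : 0 < n) (h : Sft I n) (h2 : ¬ (2 : ℤ) ∣ n)
    (h3 : ¬ (3 : ℤ) ∣ n) : Lg I n.toNat := by
  intro p hp hpd
  have hpd' : (p : ℤ) ∣ n := by
    have h1 : ((n.toNat : ℕ) : ℤ) = n := Int.toNat_of_nonneg h0.le
    rw [← h1]
    exact_mod_cast hpd
  by_contra hcon
  push Not at hcon
  by_cases h5 : 5 ≤ p
  · exact h p (mem_SI.2 ⟨h5, hcon, hp⟩) hpd'
  · have := hp.two_le
    push Not at h5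
    interval_cases p
    · exact h2 (by exact_mod_cast hpd')
    · exact h3 (by exact_mod_cast hpd')
    · revert hp; norm_num

lemma Lg.mul {I m n : ℕ} (hm : Lg I m) (hn : Lg I n) : Lg I (m * n) := by
  intro p hp hd
  rcases (Nat.Prime.dvd_mul hp).1 hd with h | h
  · exact hm p hp h
  · exact hn p hp h

lemma len_mul {m n : ℕ} (hm : m ≠ 0) (hn : n ≠ 0) :
    (m * n).primeFactorsList.length = m.primeFactorsList.length + n.primeFactorsList.length := by
  have := (Nat.perm_primeFactorsList_mul hm hn).length_eq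
  rw [List.length_append] at this
  exact this

lemma qf_res (b c u v p r : ℤ) {x : ℤ × ℤ} (h1 : x.1 = 36 * u + p) (h2 : x.2 = 36 * v + r) :
    ∃ k, qf b c x = qf b c (p, r) + 36 * k :=
  ⟨36 * u ^ 2 + 2 * u * p + b * (36 * u * v + u * r + v * p) + c * (36 * v ^ 2 + 2 * v * r), by
    unfold qf; rw [h1, h2]; ring⟩

theorem count_inj {b c : ℤ} (hb : b = 0 ∨ b = 1) (hc : 1 ≤ c) (m : ℕ) (hm : 1 ≤ m)
    (G : Finset (ℤ × ℤ))
    (w : ℤ × ℤ → (ℤ × ℤ) × (ℤ × ℤ)) (hw : Set.InjOn w G) (hdt : ∀ g ∈ G, dt (w g).1 (w g).2 = m)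
    (hnn : ∀ g ∈ G, 0 ≤ ip b c (w g).1 (w g).2) (S : Finset ℕ)
    (hS : ∀ g ∈ G, (ip b c (w g).1 (w g).2).toNat ∈ S) (T : ℕ)
    (hT : ∀ N ∈ S, (fm b c m (N : ℤ)).toNat.divisors.card ≤ T) :
    G.card ≤ (4 * m + 1) ^ 2 * T * S.card := by
  classical
  apply Finset.card_le_mul_card_image_of_maps_to hS
  intro N hN
  have h1 : ((G.filter (fun g => (ip b c (w g).1 (w g).2).toNat = N)).image w).card ≤
      (4 * m + 1) ^ 2 * (fm b c m (N : ℤ)).toNat.divisors.card := by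
    apply pairs_card hb hc m hm
    intro v hv
    rw [mem_image] at hv
    obtain ⟨g, hg, rfl⟩ := hv
    rw [mem_filter] at hg
    refine ⟨hdt g hg.1, ?_⟩
    have := hnn g hg.1
    omega
  rw [card_image_of_injOn (fun x hx y hy h => hw (by
    rw [mem_coe, mem_filter] at hx; exact hx.1) (by
    rw [mem_coe, mem_filter] at hy; exact hy.1) h)] at h1
  exact h1.trans (Nat.mul_le_mul_left _ (hT N hN))

/-- the second endpoint -/
def ad (m : ℤ) (g x : ℤ × ℤ) : ℤ × ℤ := (x.1 + m * g.1, x.2 + m * g.2)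

theorem triple_props {b c j t s s' m0 : ℤ} (m : ℤ) (hm : 1 ≤ m) (hb : b = 0 ∨ b = 1) (hc : 1 ≤ c)
    (hj2 : ¬ (2 : ℤ) ∣ qf b c (j, 1)) (hj3 : ¬ (3 : ℤ) ∣ qf b c (j, 1))
    (ht2 : ¬ (2 : ℤ) ∣ qf b c (j * t - 1, t)) (ht3 : ¬ (3 : ℤ) ∣ qf b c (j * t - 1, t))
    (hs : s * s' = 6) (hs0 : 0 < s)
    (hm0 : qf b c (j * t - 1 + m * j, t + m) = s * m0) (hm02 : ¬ (2 : ℤ) ∣ m0)
    (hm03 : ¬ (3 : ℤ) ∣ m0) (I : ℕ) (R : ℤ) (hR1 : 1 ≤ R) (X : ℕ) (g x : ℤ × ℤ)
    (u v : ℤ) (hv : g.2 = 36 * v + 1) (hu : g.1 = 36 * u + j * g.2)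
    (hS : Sft I (qf b c g)) (hqg : 1 < qf b c g)
    (x1 : dt g x = 1) (x2 : 36 * qf b c g ≤ ip b c g x) (x3 : ip b c g x ≤ R * qf b c g)
    (x4 : Sft I (qf b c x)) (x5 : Sft I (qf b c (ad m g x))) (u' v' : ℤ)
    (hx1 : x.1 = 36 * u' + (j * t - 1)) (hx2 : x.2 = 36 * v' + t)
    (hX : (1 + m + b + c) * R ^ 2 * qf b c g ≤ X) :
    ∃ A B C : ℕ, qf b c g = A ∧ qf b c x = B ∧ qf b c (ad m g x) = s * C ∧
      1 < A ∧ 1 < B ∧ 0 < C ∧ Lg I A ∧ Lg I B ∧ Lg I C ∧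
      dt g (ad m g x) = 1 ∧ dt (ad m g x) x = m ∧
      0 ≤ ip b c g x ∧ ip b c g x ≤ X ∧
      0 ≤ ip b c g (ad m g x) ∧ ip b c g (ad m g x) ≤ X ∧
      0 ≤ ip b c (ad m g x) x ∧ ip b c (ad m g x) x ≤ X := by
  have hbc : b ^ 2 < 4 * c := by rcases hb with rfl | rfl <;> nlinarith
  have hb0 : 0 ≤ b := by rcases hb with rfl | rfl <;> norm_num
  have d1 : dt g (ad m g x) = 1 := by
    rw [← x1]; unfold dt ad; simp only; ring
  have d2 : dt (ad m g x) x = m := by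
    have : dt (ad m g x) x = m * dt g x := by unfold dt ad; simp only; ring
    rw [this, x1, mul_one]
  have p1 := qf_pos hbc le_rfl x1
  have p2 := qf_pos hbc hm d2
  obtain ⟨kA, hkA⟩ := qf_res b c (u + j * v) v j 1 (x := g) (by rw [hu, hv]; ring) hv
  obtain ⟨kB, hkB⟩ := qf_res b c u' v' (j * t - 1) t hx1 hx2
  obtain ⟨kC, hkC⟩ := qf_res b c (u' + m * (u + j * v)) (v' + m * v) (j * t - 1 + m * j) (t + m)
    (x := ad m g x) (by unfold ad; simp only; rw [hx1, hu, hv]; ring)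
    (by unfold ad; simp only; rw [hx2, hv]; ring)
  have hC' : qf b c (ad m g x) = s * (m0 + 6 * (s' * kC)) := by
    rw [hkC, hm0]; linear_combination (-6 * kC) * hs
  obtain ⟨C', hC'def⟩ : ∃ C', C' = m0 + 6 * (s' * kC) := ⟨_, rfl⟩
  rw [← hC'def] at hC'
  have hC'pos : 0 < C' := by
    have := p2.1
    rw [hC'] at this
    exact (mul_pos_iff_of_pos_left hs0).1 this
  have hq := qf_mul_det (b := b) (c := c) x1
  have i2 : ip b c g (ad m g x) = ip b c g x + m * qf b c g := by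
    unfold ip qf ad; simp only; ring
  have i3 : ip b c (ad m g x) x = qf b c x + m * ip b c g x := by
    unfold ip qf ad; simp only; ring
  have hlA : Lg I (qf b c g).toNat := lg_of_sft (by linarith) hS (by rw [hkA]; omega)
    (by rw [hkA]; omega)
  have hlB : Lg I (qf b c x).toNat := lg_of_sft (by linarith) x4 (by rw [hkB]; omega)
    (by rw [hkB]; omega)
  have hlC : Lg I C'.toNat := by
    apply lg_of_sft hC'pos
    · intro p hp hd
      apply x5 p hp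
      rw [hC']
      exact Dvd.dvd.mul_left hd _
    · rw [hC'def]; omega
    · rw [hC'def]; omega
  clear hkA hkB hkC hC'def x4 x5 hS hu hv hx1 hx2 hj2 hj3 ht2 ht3 hm02 hm03 hm0
  rw [i2, i3]
  set N := ip b c g x with hN
  set q := qf b c g with hqd
  set Q := qf b c x with hQd
  have hNpos : 1 ≤ N := by linarith
  have hfp1 : N ^ 2 ≤ fm b c 1 N := by
    unfold fm
    have : 0 ≤ b * 1 * N := by positivity
    nlinarith
  have hfp2 : fm b c 1 N ≤ (1 + b + c) * N ^ 2 := by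
    unfold fm
    have h1 : N ≤ N ^ 2 := by nlinarith
    have h2 : 1 ≤ N ^ 2 := by nlinarith
    nlinarith
  have hqx1 : q ≤ Q := by
    by_contra hcon
    push Not at hcon
    nlinarith
  have hqx2 : Q ≤ (1 + b + c) * R ^ 2 * q := by
    have h1 : q * Q ≤ q * ((1 + b + c) * R ^ 2 * q) := by
      rw [hq]
      refine hfp2.trans ?_
      have h2 : N ^ 2 ≤ (R * q) ^ 2 := pow_le_pow_left₀ (by linarith) x3 2
      have h3 : (1 + b + c) * N ^ 2 ≤ (1 + b + c) * (R * q) ^ 2 :=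
        mul_le_mul_of_nonneg_left h2 (by linarith)
      calc (1 + b + c) * N ^ 2 ≤ (1 + b + c) * (R * q) ^ 2 := h3
        _ = q * ((1 + b + c) * R ^ 2 * q) := by ring
    exact le_of_mul_le_mul_left h1 (by linarith)
  have hRR : R * q ≤ R ^ 2 * q := by
    have : R ≤ R ^ 2 := by nlinarith
    exact mul_le_mul_of_nonneg_right this (by linarith)
  have hmN : m * N ≤ m * (R ^ 2 * q) := mul_le_mul_of_nonneg_left (by linarith) (by linarith)
  have hbig : Q + m * N ≤ X := by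
    have : (1 + b + c) * R ^ 2 * q + m * (R ^ 2 * q) = (1 + m + b + c) * R ^ 2 * q := by ring
    linarith
  have hNm : N ≤ m * N := by nlinarith
  have hmq : m * q ≤ X := by
    have h1 : m * q ≤ m * N := mul_le_mul_of_nonneg_left (by linarith) (by linarith)
    linarith
  have hN2 : N + m * q ≤ X := by
    have h1 : m * q + q ≤ m * N := by
      have h3 : m * (36 * q) ≤ m * N := mul_le_mul_of_nonneg_left x2 (by linarith)
      nlinarith
    have h4 : N ≤ (1 + b + c) * R ^ 2 * q := by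
      have : R ^ 2 * q ≤ (1 + b + c) * (R ^ 2 * q) := by
        have h5 : 0 ≤ R ^ 2 * q := by positivity
        nlinarith
      linarith
    have h5 : m * q ≤ m * (R ^ 2 * q) := by
      have h6 : q ≤ R ^ 2 * q := by
        have : 1 ≤ R ^ 2 := one_le_pow₀ hR1
        nlinarith
      exact mul_le_mul_of_nonneg_left h6 (by linarith)
    have : (1 + b + c) * R ^ 2 * q + m * (R ^ 2 * q) = (1 + m + b + c) * R ^ 2 * q := by ring
    linarith
  have hq0 : 0 ≤ q := by linarith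
  have hmq0 : 0 ≤ m * q := by positivity
  have hmN0 : 0 ≤ m * N := by linarith
  refine ⟨q.toNat, Q.toNat, C'.toNat, (Int.toNat_of_nonneg hq0).symm,
    (Int.toNat_of_nonneg (by linarith)).symm, ?_, ?_, ?_, ?_, hlA, hlB, hlC, d1, d2,
    by linarith, by linarith, by linarith, hN2, by linarith, hbig⟩
  · rw [hC', Int.toNat_of_nonneg hC'pos.le]
  · rw [Int.lt_toNat]; exact_mod_cast hqg
  · rw [Int.lt_toNat]; push_cast; linarith
  · rw [Int.lt_toNat]; exact_mod_cast hC'pos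

theorem main_count {b c j t s s' m0 : ℤ} (m : ℕ) (hm : 1 ≤ m) (hb : b = 0 ∨ b = 1) (hc : 1 ≤ c)
    (hj2 : ¬ (2 : ℤ) ∣ qf b c (j, 1)) (hj3 : ¬ (3 : ℤ) ∣ qf b c (j, 1))
    (ht2 : ¬ (2 : ℤ) ∣ qf b c (j * t - 1, t)) (ht3 : ¬ (3 : ℤ) ∣ qf b c (j * t - 1, t))
    (hs : s * s' = 6) (hs0 : 0 < s)
    (hm0 : qf b c (j * t - 1 + m * j, t + m) = s * m0) (hm02 : ¬ (2 : ℤ) ∣ m0)
    (hm03 : ¬ (3 : ℤ) ∣ m0) (I : ℕ) (hI : 10 ≤ I) (G : Finset (ℤ × ℤ))
    (hG : ∀ g ∈ G, IsCoprime g.1 g.2 ∧ (∃ u v : ℤ, g.2 = 36 * v + 1 ∧ g.1 = 36 * u + j * g.2) ∧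
      Sft I (qf b c g) ∧ 1 < qf b c g) (X T : ℕ)
    (hX : ∀ g ∈ G, (1 + m + b + c) * (36 * 2 ^ (584 * 2 ^ I) + 36) ^ 2 * qf b c g ≤ X)
    (hT : ∀ m' : ℕ, (m' = 1 ∨ m' = m) → ∀ N : ℕ, N ≤ X →
      (fm b c m' (N : ℤ)).toNat.divisors.card ≤ T) :
    ∃ i < 2, ∃ l < 2, G.card ≤ 4 * (4 * m + 1) ^ 2 * T * (TA b c 1 1 I X i).card ∧
      G.card ≤ 4 * (4 * m + 1) ^ 2 * T * (TA b c 1 s I X l).card ∧
      G.card ≤ 4 * (4 * m + 1) ^ 2 * T * (TA b c m s I X ((i + l) % 2)).card := by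
  classical
  have hbc : b ^ 2 < 4 * c := by rcases hb with rfl | rfl <;> nlinarith
  have hmZ : (1 : ℤ) ≤ m := by exact_mod_cast hm
  obtain ⟨R, hR⟩ : ∃ R : ℤ, R = 36 * 2 ^ (584 * 2 ^ I) + 36 := ⟨_, rfl⟩
  have hR1 : 1 ≤ R := by
    rw [hR]
    have : (0 : ℤ) ≤ 2 ^ (584 * 2 ^ I) := by positivity
    linarith
  have key : ∀ g : ℤ × ℤ, ∃ (x : ℤ × ℤ) (A B C : ℕ), g ∈ G → (dt g x = 1 ∧
      (qf b c g = A ∧ qf b c x = B ∧ qf b c (ad m g x) = s * C ∧
      1 < A ∧ 1 < B ∧ 0 < C ∧ Lg I A ∧ Lg I B ∧ Lg I C ∧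
      dt g (ad m g x) = 1 ∧ dt (ad m g x) x = m ∧
      0 ≤ ip b c g x ∧ ip b c g x ≤ X ∧
      0 ≤ ip b c g (ad m g x) ∧ ip b c g (ad m g x) ≤ X ∧
      0 ≤ ip b c (ad m g x) x ∧ ip b c (ad m g x) x ≤ X)) := by
    intro g
    by_cases hg : g ∈ G
    · obtain ⟨h1, ⟨u, v, hv, hu⟩, h4, h5⟩ := hG g hg
      obtain ⟨x, x1, x2, x3, x4, x5, u', v', hx1, hx2⟩ :=
        exists_triple j t (m : ℤ) hbc I hI g h1 u v hv hu h4
      have hXg := hX g hg
      rw [← hR] at x3 hXg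
      obtain ⟨A, B, C, hABC⟩ := triple_props (m : ℤ) hmZ hb hc hj2 hj3 ht2 ht3 hs hs0 hm0 hm02 hm03
        I R hR1 X g x u v hv hu h4 h5 x1 x2 x3 x4 x5 u' v' hx1 hx2 hXg
      exact ⟨x, A, B, C, fun _ => ⟨x1, hABC⟩⟩
    · exact ⟨0, 0, 0, 0, fun h => absurd h hg⟩
  choose xf A B C hk using key
  -- membership
  have m1 : ∀ g ∈ G, (ip b c g (xf g)).toNat ∈
      TA b c 1 1 I X ((A g * B g).primeFactorsList.length % 2) := by
    intro g hg
    obtain ⟨d1, hA, hB, hC, hA1, hB1, hC1, hlA, hlB, hlC, d2, d3, n1, n2, n3, n4, n5, n6⟩ := hk g hg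
    rw [TA, mem_filter, mem_range]
    refine ⟨?_, A g * B g, ?_, ?_, hlA.mul hlB, rfl⟩
    · rw [Nat.lt_succ_iff, Int.toNat_le]; exact n2
    · rw [Int.toNat_of_nonneg n1, ← qf_mul_det d1, hA, hB]; push_cast; ring
    · nlinarith
  have m2 : ∀ g ∈ G, (ip b c g (ad m g (xf g))).toNat ∈
      TA b c 1 s I X ((A g * C g).primeFactorsList.length % 2) := by
    intro g hg
    obtain ⟨d1, hA, hB, hC, hA1, hB1, hC1, hlA, hlB, hlC, d2, d3, n1, n2, n3, n4, n5, n6⟩ := hk g hg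
    rw [TA, mem_filter, mem_range]
    refine ⟨?_, A g * C g, ?_, ?_, hlA.mul hlC, rfl⟩
    · rw [Nat.lt_succ_iff, Int.toNat_le]; exact n4
    · rw [Int.toNat_of_nonneg n3, ← qf_mul_det d2, hA, hC]; push_cast; ring
    · nlinarith
  have m3 : ∀ g ∈ G, (ip b c (ad m g (xf g)) (xf g)).toNat ∈
      TA b c m s I X ((B g * C g).primeFactorsList.length % 2) := by
    intro g hg
    obtain ⟨d1, hA, hB, hC, hA1, hB1, hC1, hlA, hlB, hlC, d2, d3, n1, n2, n3, n4, n5, n6⟩ := hk g hg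
    rw [TA, mem_filter, mem_range]
    refine ⟨?_, B g * C g, ?_, ?_, hlB.mul hlC, rfl⟩
    · rw [Nat.lt_succ_iff, Int.toNat_le]; exact n6
    · rw [Int.toNat_of_nonneg n5, ← qf_mul_det d3, hB, hC]; push_cast; ring
    · nlinarith
  -- pigeonhole
  set f : ℤ × ℤ → ℕ × ℕ := fun g => ((A g * B g).primeFactorsList.length % 2,
    (A g * C g).primeFactorsList.length % 2) with hf
  have hmaps : ∀ g ∈ G, f g ∈ range 2 ×ˢ range 2 := by
    intro g _
    rw [mem_product, mem_range, mem_range]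
    exact ⟨Nat.mod_lt _ (by norm_num), Nat.mod_lt _ (by norm_num)⟩
  have hsum := Finset.card_eq_sum_card_fiberwise hmaps
  obtain ⟨y, hy, hy4⟩ : ∃ y ∈ range 2 ×ˢ range 2, G.card ≤ 4 * (G.filter (fun g => f g = y)).card := by
    by_contra hcon
    push Not at hcon
    have h1 : ∑ y ∈ range 2 ×ˢ range 2, 4 * (G.filter (fun g => f g = y)).card
        < ∑ y ∈ range 2 ×ˢ range 2, G.card :=
      sum_lt_sum_of_nonempty ⟨(0, 0), by simp⟩ hcon
    rw [← mul_sum, ← hsum, sum_const, card_product, card_range, smul_eq_mul] at h1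
    omega
  rw [mem_product, mem_range, mem_range] at hy
  have red : ∀ S : ℕ, (G.filter (fun g => f g = y)).card ≤ (4 * m + 1) ^ 2 * T * S →
      G.card ≤ 4 * (4 * m + 1) ^ 2 * T * S := by
    intro S h
    calc G.card ≤ 4 * (G.filter (fun g => f g = y)).card := hy4
      _ ≤ 4 * ((4 * m + 1) ^ 2 * T * S) := Nat.mul_le_mul_left _ h
      _ = 4 * (4 * m + 1) ^ 2 * T * S := by ring
  refine ⟨y.1, hy.1, y.2, hy.2, red _ ?_, red _ ?_, red _ ?_⟩
  · refine (count_inj hb hc 1 le_rfl (G.filter (fun g => f g = y)) (fun g => (g, xf g))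
      (fun g _ g' _ h => (Prod.ext_iff.1 h).1) ?_ ?_ (TA b c 1 1 I X y.1) ?_ T ?_).trans ?_
    · intro g hg; exact_mod_cast (hk g (mem_filter.1 hg).1).1
    · intro g hg
      obtain ⟨d1, hA, hB, hC, hA1, hB1, hC1, hlA, hlB, hlC, d2, d3, n1, n2, n3, n4, n5, n6⟩ :=
        hk g (mem_filter.1 hg).1
      exact n1
    · intro g hg
      have h1 := m1 g (mem_filter.1 hg).1
      have h2 := (Prod.ext_iff.1 (mem_filter.1 hg).2).1
      rw [hf] at h2
      simp only at h2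
      rw [h2] at h1
      exact h1
    · intro N hN
      rw [TA, mem_filter, mem_range] at hN
      exact hT 1 (Or.inl rfl) N (Nat.lt_succ_iff.1 hN.1)
    · apply Nat.mul_le_mul_right
      apply Nat.mul_le_mul_right
      apply Nat.pow_le_pow_left
      omega
  · refine (count_inj hb hc 1 le_rfl (G.filter (fun g => f g = y)) (fun g => (g, ad m g (xf g)))
      (fun g _ g' _ h => (Prod.ext_iff.1 h).1) ?_ ?_ (TA b c 1 s I X y.2) ?_ T ?_).trans ?_
    · intro g hg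
      obtain ⟨d1, hA, hB, hC, hA1, hB1, hC1, hlA, hlB, hlC, d2, d3, n1, n2, n3, n4, n5, n6⟩ :=
        hk g (mem_filter.1 hg).1
      exact_mod_cast d2
    · intro g hg
      obtain ⟨d1, hA, hB, hC, hA1, hB1, hC1, hlA, hlB, hlC, d2, d3, n1, n2, n3, n4, n5, n6⟩ :=
        hk g (mem_filter.1 hg).1
      exact n3
    · intro g hg
      have h1 := m2 g (mem_filter.1 hg).1
      have h2 := (Prod.ext_iff.1 (mem_filter.1 hg).2).2
      rw [hf] at h2
      simp only at h2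
      rw [h2] at h1
      exact h1
    · intro N hN
      rw [TA, mem_filter, mem_range] at hN
      exact hT 1 (Or.inl rfl) N (Nat.lt_succ_iff.1 hN.1)
    · apply Nat.mul_le_mul_right
      apply Nat.mul_le_mul_right
      apply Nat.pow_le_pow_left
      omega
  · refine count_inj hb hc m hm (G.filter (fun g => f g = y)) (fun g => (ad m g (xf g), xf g))
      (fun g _ g' _ h => ?_) ?_ ?_ (TA b c m s I X ((y.1 + y.2) % 2)) ?_ T ?_
    · have h1 := (Prod.ext_iff.1 h).1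
      have h2 := (Prod.ext_iff.1 h).2
      simp only at h1 h2
      rw [h2] at h1
      unfold ad at h1
      rw [Prod.mk.injEq] at h1
      have hm0' : (m : ℤ) ≠ 0 := by omega
      exact Prod.ext (mul_left_cancel₀ hm0' (by linarith [h1.1]))
        (mul_left_cancel₀ hm0' (by linarith [h1.2]))
    · intro g hg
      obtain ⟨d1, hA, hB, hC, hA1, hB1, hC1, hlA, hlB, hlC, d2, d3, n1, n2, n3, n4, n5, n6⟩ :=
        hk g (mem_filter.1 hg).1
      exact d3
    · intro g hg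
      obtain ⟨d1, hA, hB, hC, hA1, hB1, hC1, hlA, hlB, hlC, d2, d3, n1, n2, n3, n4, n5, n6⟩ :=
        hk g (mem_filter.1 hg).1
      exact n5
    · intro g hg
      obtain ⟨d1, hA, hB, hC, hA1, hB1, hC1, hlA, hlB, hlC, d2, d3, n1, n2, n3, n4, n5, n6⟩ :=
        hk g (mem_filter.1 hg).1
      have h1 := m3 g (mem_filter.1 hg).1
      have h2 := (Prod.ext_iff.1 (mem_filter.1 hg).2).1
      have h3 := (Prod.ext_iff.1 (mem_filter.1 hg).2).2
      rw [hf] at h2 h3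
      simp only at h2 h3
      have hAn : A g ≠ 0 := by omega
      have hBn : B g ≠ 0 := by omega
      have hCn : C g ≠ 0 := by omega
      rw [len_mul hAn hBn] at h2
      rw [len_mul hAn hCn] at h3
      rw [len_mul hBn hCn] at h1
      have h4 : ((B g).primeFactorsList.length + (C g).primeFactorsList.length) % 2
          = (y.1 + y.2) % 2 := by omega
      rw [h4] at h1
      exact h1
    · intro N hN
      rw [TA, mem_filter, mem_range] at hN
      exact hT m (Or.inr rfl) N (Nat.lt_succ_iff.1 hN.1)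

end Pool.Agent.H505R2
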