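import Pool.Agent.H446R2.BrunC

/-!
Brun-Hooley sieve with several excluded residue classes per prime: representations of sifting
functions by indicator functions of arithmetic progressions.
-/

set_option autoImplicit false

namespace Pool.Agent.H505R2

open Finset Pool.Agent.Helper742 Pool.Agent.H446R2

/-- `g` is a finite combination of indicators of arithmetic progressions, with mean `μ`, absolute
coefficient sum at most `e`, and moduli composed of primes of `P`. -/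
def RepA (P : Finset ℕ) (g : ℕ → ℝ) (μ e : ℝ) : Prop :=
  ∃ (ι : Type) (s : Finset ι) (d a : ι → ℕ) (c : ι → ℝ),
    (∀ i ∈ s, 0 < d i ∧ ∀ q : ℕ, q.Prime → q ∣ d i → q ∈ P) ∧
    (∀ n, g n = ∑ i ∈ s, c i * (if n % d i = a i % d i then 1 else 0)) ∧
    μ = ∑ i ∈ s, c i / d i ∧ ∑ i ∈ s, |c i| ≤ e

lemma RepA.mul {P Q : Finset ℕ} {g h : ℕ → ℝ} {μ ν e f : ℝ} (hg : RepA P g μ e)
    (hh : RepA Q h ν f) (hPQ : Disjoint P Q) :
    RepA (P ∪ Q) (fun n => g n * h n) (μ * ν) (e * f) := by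
  obtain ⟨ι, s, d, a, c, h1, h2, h3, h4⟩ := hg
  obtain ⟨κ, t, d', a', c', h1', h2', h3', h4'⟩ := hh
  classical
  have hcop : ∀ x ∈ s ×ˢ t, Nat.Coprime (d x.1) (d' x.2) := by
    intro x hx
    rw [mem_product] at hx
    apply Nat.coprime_of_dvd
    intro q hq hq1 hq2
    exact Finset.disjoint_left.1 hPQ ((h1 _ hx.1).2 q hq hq1) ((h1' _ hx.2).2 q hq hq2)
  refine ⟨ι × κ, s ×ˢ t, fun x => d x.1 * d' x.2,
    fun x => if h : Nat.Coprime (d x.1) (d' x.2) then
      (Nat.chineseRemainder h (a x.1) (a' x.2) : ℕ) else 0, fun x => c x.1 * c' x.2, ?_, ?_, ?_, ?_⟩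
  · intro x hx
    rw [mem_product] at hx
    refine ⟨Nat.mul_pos (h1 _ hx.1).1 (h1' _ hx.2).1, fun q hq hqd => ?_⟩
    rw [mem_union]
    rcases (Nat.Prime.dvd_mul hq).1 hqd with h | h
    · exact Or.inl ((h1 _ hx.1).2 q hq h)
    · exact Or.inr ((h1' _ hx.2).2 q hq h)
  · intro n
    show g n * h n = _
    rw [h2, h2', sum_mul_sum, ← sum_product']
    apply sum_congr rfl
    intro x hx
    have hc := hcop x hx
    beta_reduce
    rw [dif_pos hc]
    obtain ⟨r, hr1, hr2⟩ := Nat.chineseRemainder hc (a x.1) (a' x.2)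
    show _ = c x.1 * c' x.2 * (if n % (d x.1 * d' x.2) = r % (d x.1 * d' x.2) then 1 else 0)
    have key := Nat.modEq_and_modEq_iff_modEq_mul (a := n) (b := r) hc
    by_cases ha : n % d x.1 = a x.1 % d x.1
    · by_cases hb : n % d' x.2 = a' x.2 % d' x.2
      · have hr : n % (d x.1 * d' x.2) = r % (d x.1 * d' x.2) :=
          key.1 ⟨Nat.ModEq.trans ha hr1.symm, Nat.ModEq.trans hb hr2.symm⟩
        rw [if_pos ha, if_pos hb, if_pos hr]; ring
      · have hr : ¬ n % (d x.1 * d' x.2) = r % (d x.1 * d' x.2) :=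
          fun h => hb (Nat.ModEq.trans (key.2 h).2 hr2)
        rw [if_neg hb, if_neg hr]; ring
    · have hr : ¬ n % (d x.1 * d' x.2) = r % (d x.1 * d' x.2) :=
        fun h => ha (Nat.ModEq.trans (key.2 h).1 hr1)
      rw [if_neg ha, if_neg hr]; ring
  · rw [h3, h3', sum_mul_sum, ← sum_product']
    apply sum_congr rfl
    intro x _
    push_cast
    rw [div_mul_div_comm]
  · calc ∑ x ∈ s ×ˢ t, |c x.1 * c' x.2| = (∑ i ∈ s, |c i|) * ∑ i ∈ t, |c' i| := by
          rw [sum_mul_sum, ← sum_product']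
          apply sum_congr rfl
          intro x _
          rw [abs_mul]
      _ ≤ e * f := mul_le_mul h4 h4' (sum_nonneg fun i _ => abs_nonneg _)
          ((sum_nonneg fun i _ => abs_nonneg _).trans h4)

lemma RepA.add {P : Finset ℕ} {g h : ℕ → ℝ} {μ ν e f : ℝ} (hg : RepA P g μ e)
    (hh : RepA P h ν f) : RepA P (fun n => g n + h n) (μ + ν) (e + f) := by
  obtain ⟨ι, s, d, a, c, h1, h2, h3, h4⟩ := hg
  obtain ⟨κ, t, d', a', c', h1', h2', h3', h4'⟩ := hh
  refine ⟨ι ⊕ κ, s.disjSum t, Sum.elim d d', Sum.elim a a', Sum.elim c c', ?_, ?_, ?_, ?_⟩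
  · intro x hx
    rw [mem_disjSum] at hx
    rcases hx with ⟨a, ha, rfl⟩ | ⟨b, hb, rfl⟩
    · exact h1 a ha
    · exact h1' b hb
  · intro n
    show g n + h n = _
    rw [h2, h2', sum_disjSum]
    rfl
  · rw [h3, h3', sum_disjSum]
    rfl
  · rw [sum_disjSum]
    simp only [Sum.elim_inl, Sum.elim_inr]
    exact add_le_add h4 h4'

lemma RepA.smul {P : Finset ℕ} {g : ℕ → ℝ} {μ e : ℝ} (hg : RepA P g μ e) (b : ℝ) :
    RepA P (fun n => b * g n) (b * μ) (|b| * e) := by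
  obtain ⟨ι, s, d, a, c, h1, h2, h3, h4⟩ := hg
  refine ⟨ι, s, d, a, fun i => b * c i, h1, ?_, ?_, ?_⟩
  · intro n
    show b * g n = _
    rw [h2, mul_sum]
    apply sum_congr rfl
    intro i _
    ring
  · rw [h3, mul_sum]
    apply sum_congr rfl
    intro i _
    ring
  · calc ∑ i ∈ s, |b * c i| = |b| * ∑ i ∈ s, |c i| := by
          rw [mul_sum]
          exact sum_congr rfl fun i _ => abs_mul _ _
      _ ≤ |b| * e := mul_le_mul_of_nonneg_left h4 (abs_nonneg _)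

lemma RepA.sub {P : Finset ℕ} {g h : ℕ → ℝ} {μ ν e f : ℝ} (hg : RepA P g μ e)
    (hh : RepA P h ν f) : RepA P (fun n => g n - h n) (μ - ν) (e + f) := by
  have := hg.add (hh.smul (-1))
  simp only [abs_neg, abs_one, one_mul, neg_mul] at this
  exact this

lemma RepA.mono {P Q : Finset ℕ} {g : ℕ → ℝ} {μ e f : ℝ} (hg : RepA P g μ e) (hPQ : P ⊆ Q)
    (hef : e ≤ f) : RepA Q g μ f := by
  obtain ⟨ι, s, d, a, c, h1, h2, h3, h4⟩ := hg
  exact ⟨ι, s, d, a, c, fun i hi => ⟨(h1 i hi).1, fun q hq hqd => hPQ ((h1 i hi).2 q hq hqd)⟩,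
    h2, h3, h4.trans hef⟩

lemma repA_zero (P : Finset ℕ) : RepA P (fun _ => 0) 0 0 :=
  ⟨Unit, ∅, fun _ => 1, fun _ => 0, fun _ => 1, by simp, by simp, by simp, by simp⟩

lemma repA_one : RepA ∅ (fun _ => 1) 1 1 :=
  ⟨Unit, univ, fun _ => 1, fun _ => 0, fun _ => 1, fun _ _ => ⟨one_pos, fun q hq hqd => by
    exfalso; exact hq.one_lt.ne' (Nat.dvd_one.1 hqd)⟩, fun n => by simp [Nat.mod_one], by simp,
    by simp⟩

lemma RepA.sum {β : Type} {P : Finset ℕ} (F : Finset β) (g : β → ℕ → ℝ) (μ e c : β → ℝ)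
    (h : ∀ b ∈ F, RepA P (g b) (μ b) (e b)) :
    RepA P (fun n => ∑ b ∈ F, c b * g b n) (∑ b ∈ F, c b * μ b) (∑ b ∈ F, |c b| * e b) := by
  classical
  induction F using Finset.induction_on with
  | empty => simpa using repA_zero P
  | insert b F hb ih =>
    have h1 := (h b (mem_insert_self _ _)).smul (c b)
    have h2 := ih (fun b' hb' => h b' (mem_insert_of_mem hb'))
    have h3 := h1.add h2
    simpa only [sum_insert hb] using h3

lemma count_mod (k d a : ℕ) (hd : 0 < d) :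
    |∑ n ∈ Ioc 0 k, (if n % d = a % d then (1 : ℝ) else 0) - k / d| ≤ 1 := by
  have h1 : ∑ n ∈ Ioc 0 k, (if n % d = a % d then (1 : ℝ) else 0)
      = (((Ioc 0 k).filter (fun n => n ≡ a [MOD d])).card : ℝ) := by
    rw [Finset.card_filter]
    push_cast
    rfl
  have h2 := Nat.Ioc_filter_modEq_card 0 k hd a
  have h3 : ((((Ioc 0 k).filter (fun n => n ≡ a [MOD d])).card : ℤ) : ℚ)
      = ((max (⌊((k : ℚ) - a) / d⌋ - ⌊(((0 : ℕ) : ℚ) - a) / d⌋) 0 : ℤ) : ℚ) := by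
    rw [h2]
  have hd' : (0 : ℚ) < d := by exact_mod_cast hd
  set x : ℚ := ((k : ℚ) - a) / d
  set y : ℚ := (((0 : ℕ) : ℚ) - a) / d
  have hxy : x - y = k / d := by
    simp only [x, y]
    push_cast
    ring
  have hk : (0 : ℚ) ≤ k / d := by positivity
  have hf1 := Int.floor_le x
  have hf2 := Int.lt_floor_add_one x
  have hf3 := Int.floor_le y
  have hf4 := Int.lt_floor_add_one y
  have h4 : |(((Ioc 0 k).filter (fun n => n ≡ a [MOD d])).card : ℚ) - k / d| ≤ 1 := by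
    have h5 : (((Ioc 0 k).filter (fun n => n ≡ a [MOD d])).card : ℚ)
        = ((max (⌊x⌋ - ⌊y⌋) 0 : ℤ) : ℚ) := by
      rw [← h3]; norm_cast
    rw [h5, ← hxy]
    rcases le_total (⌊x⌋ - ⌊y⌋) 0 with h | h
    · rw [max_eq_right h]
      have h' : ((⌊x⌋ - ⌊y⌋ : ℤ) : ℚ) ≤ 0 := by exact_mod_cast h
      push_cast at h' ⊢
      rw [abs_le]
      constructor <;> linarith
    · rw [max_eq_left h]
      push_cast
      rw [abs_le]
      constructor <;> linarith
  rw [h1]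
  have h6 : ((|(((Ioc 0 k).filter (fun n => n ≡ a [MOD d])).card : ℚ) - k / d| : ℚ) : ℝ)
      ≤ ((1 : ℚ) : ℝ) := by exact_mod_cast h4
  push_cast at h6
  exact h6

lemma RepA.sum_bound {P : Finset ℕ} {g : ℕ → ℝ} {μ e : ℝ} (hg : RepA P g μ e) (k : ℕ) :
    |∑ n ∈ Ioc 0 k, g n - k * μ| ≤ e := by
  obtain ⟨ι, s, d, a, c, h1, h2, h3, h4⟩ := hg
  have h5 : ∑ n ∈ Ioc 0 k, g n - k * μ
      = ∑ i ∈ s, c i * (∑ n ∈ Ioc 0 k, (if n % d i = a i % d i then (1 : ℝ) else 0)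
        - k / d i) := by
    simp_rw [h2, h3]
    rw [sum_comm, mul_sum, ← sum_sub_distrib]
    apply sum_congr rfl
    intro i _
    rw [mul_sub, mul_sum]
    ring
  rw [h5]
  refine (abs_sum_le_sum_abs _ _).trans (le_trans ?_ h4)
  apply sum_le_sum
  intro i hi
  rw [abs_mul]
  have := count_mod k (d i) (a i) (h1 i hi).1
  nlinarith [abs_nonneg (c i)]

/-- indicator of an excluded class -/
noncomputable def uo (Ω : ℕ → Finset ℕ) (n p : ℕ) : ℝ := if n % p ∈ Ω p then 1 else 0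

/-- local density -/
noncomputable def dd (Ω : ℕ → Finset ℕ) (p : ℕ) : ℝ := (Ω p).card / (p : ℝ)

variable {Ω : ℕ → Finset ℕ}

lemma uo_nonneg (n p : ℕ) : 0 ≤ uo Ω n p := by unfold uo; split_ifs <;> norm_num
lemma uo_le_one (n p : ℕ) : uo Ω n p ≤ 1 := by unfold uo; split_ifs <;> norm_num

lemma repA_uo {p : ℕ} (hp : p.Prime) (hΩ : Ω p ⊆ range p) :
    RepA {p} (fun n => uo Ω n p) (dd Ω p) ((Ω p).card) := by
  refine ⟨ℕ, Ω p, fun _ => p, fun r => r, fun _ => 1, ?_, ?_, ?_, ?_⟩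
  · intro i _
    refine ⟨hp.pos, fun q hq hqd => ?_⟩
    rw [mem_singleton]
    exact (Nat.prime_dvd_prime_iff_eq hq hp).1 hqd
  · intro n
    show uo Ω n p = _
    simp only [one_mul]
    unfold uo
    have h1 : ∀ r ∈ Ω p, (if n % p = r % p then (1 : ℝ) else 0) = if n % p = r then 1 else 0 := by
      intro r hr
      rw [Nat.mod_eq_of_lt (mem_range.1 (hΩ hr))]
    rw [sum_congr rfl h1, sum_ite_eq]
  · rw [sum_const, nsmul_eq_mul]
    unfold dd
    ring
  · simp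

lemma repA_prod {A : Finset ℕ} (hA : ∀ p ∈ A, p.Prime) (hΩ : ∀ p ∈ A, Ω p ⊆ range p) (κ : ℕ)
    (hκ : ∀ p ∈ A, (Ω p).card ≤ κ) :
    RepA A (fun n => ∏ p ∈ A, uo Ω n p) (∏ p ∈ A, dd Ω p) ((κ : ℝ) ^ A.card) := by
  classical
  induction A using Finset.induction_on with
  | empty => simpa using repA_one
  | insert p A hp ih =>
    have h1 := repA_uo (Ω := Ω) (hA p (mem_insert_self _ _)) (hΩ p (mem_insert_self _ _))
    have h2 := ih (fun q hq => hA q (mem_insert_of_mem hq)) (fun q hq => hΩ q (mem_insert_of_mem hq))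
      (fun q hq => hκ q (mem_insert_of_mem hq))
    have h3 := h1.mul h2 (by rw [disjoint_singleton_left]; exact hp)
    rw [card_insert_of_notMem hp, pow_succ, prod_insert hp]
    simp only [prod_insert hp]
    refine h3.mono (by rw [insert_eq]) ?_
    rw [mul_comm]
    apply mul_le_mul_of_nonneg_left _ (by positivity)
    exact_mod_cast hκ p (mem_insert_self _ _)

lemma repA_family {T : Finset ℕ} (hT : ∀ p ∈ T, p.Prime) (hΩ : ∀ p ∈ T, Ω p ⊆ range p) (κ : ℕ)
    (hκ : ∀ p ∈ T, (Ω p).card ≤ κ) (F : Finset (Finset ℕ)) (hF : F ⊆ T.powerset)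
    (c : Finset ℕ → ℝ) (hc : ∀ A, |c A| ≤ 1) :
    RepA T (fun n => ∑ A ∈ F, c A * ∏ p ∈ A, uo Ω n p) (∑ A ∈ F, c A * ∏ p ∈ A, dd Ω p)
      (∑ A ∈ F, (κ : ℝ) ^ A.card) := by
  have h := RepA.sum (P := T) F (fun A n => ∏ p ∈ A, uo Ω n p) (fun A => ∏ p ∈ A, dd Ω p)
    (fun A => (κ : ℝ) ^ A.card) c (by
      intro A hA
      have hAT : A ⊆ T := mem_powerset.1 (hF hA)
      exact (repA_prod (fun p hp => hT p (hAT hp)) (fun p hp => hΩ p (hAT hp)) κ
        (fun p hp => hκ p (hAT hp))).mono hAT le_rfl)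
  refine h.mono (subset_refl _) ?_
  apply sum_le_sum
  intro A _
  have : (0 : ℝ) ≤ (κ : ℝ) ^ A.card := by positivity
  nlinarith [hc A]

lemma repA_yb {T : Finset ℕ} (hT : ∀ p ∈ T, p.Prime) (hΩ : ∀ p ∈ T, Ω p ⊆ range p) (κ : ℕ)
    (hκ : ∀ p ∈ T, (Ω p).card ≤ κ) (r : ℕ) :
    RepA T (fun n => yb T r (uo Ω n)) (yb T r (dd Ω))
      (∑ A ∈ T.powerset with A.card < r, (κ : ℝ) ^ A.card) :=
  repA_family hT hΩ κ hκ _ (filter_subset _ _) (fun A => (-1 : ℝ) ^ A.card) (fun A => by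
    rw [abs_pow, abs_neg, abs_one, one_pow])

lemma repA_wb {T : Finset ℕ} (hT : ∀ p ∈ T, p.Prime) (hΩ : ∀ p ∈ T, Ω p ⊆ range p) (κ : ℕ)
    (hκ : ∀ p ∈ T, (Ω p).card ≤ κ) (r : ℕ) :
    RepA T (fun n => wb T r (uo Ω n)) (wb T r (dd Ω))
      (∑ A ∈ T.powerset with A.card = r, (κ : ℝ) ^ A.card) := by
  have h := repA_family hT hΩ κ hκ (T.powerset.filter (fun A => A.card = r)) (filter_subset _ _)
    (fun _ => 1) (fun A => by simp)
  simp only [one_mul] at h
  exact h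

/-- weighted number of small subsets -/
noncomputable def Nk (κ : ℕ) (T : Finset ℕ) (r : ℕ) : ℝ :=
  ∑ A ∈ T.powerset with A.card < r, (κ : ℝ) ^ A.card
    + ∑ A ∈ T.powerset with A.card = r, (κ : ℝ) ^ A.card

lemma Nk_nonneg (κ : ℕ) (T : Finset ℕ) (r : ℕ) : 0 ≤ Nk κ T r := by
  unfold Nk
  apply add_nonneg <;> exact sum_nonneg fun A _ => by positivity

theorem blocksA (T : ℕ → Finset ℕ) (r : ℕ → ℕ) (hT : ∀ i, ∀ p ∈ T i, p.Prime)
    (hΩ : ∀ i, ∀ p ∈ T i, Ω p ⊆ range p) (κ : ℕ) (hκ : ∀ i, ∀ p ∈ T i, (Ω p).card ≤ κ)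
    (hdisj : ∀ i j, i < j → Disjoint (T i) (T j)) (hr : ∀ i, Odd (r i))
    (hV : ∀ i, 0 < yb (T i) (r i) (dd Ω)) (I : ℕ) :
    ∃ U L : ℕ → ℝ,
      RepA ((range I).biUnion T) U (∏ i ∈ range I, yb (T i) (r i) (dd Ω))
        (∏ i ∈ range I, Nk κ (T i) (r i)) ∧
      RepA ((range I).biUnion T) L ((∏ i ∈ range I, yb (T i) (r i) (dd Ω))
          * (1 - ∑ i ∈ range I, wb (T i) (r i) (dd Ω) / yb (T i) (r i) (dd Ω)))
        (∏ i ∈ range I, Nk κ (T i) (r i)) ∧
      ∀ n, L n ≤ ∏ i ∈ range I, ∏ p ∈ T i, (1 - uo Ω n p) ∧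
        ∏ i ∈ range I, ∏ p ∈ T i, (1 - uo Ω n p) ≤ U n := by
  induction I with
  | zero =>
    refine ⟨fun _ => 1, fun _ => 1, ?_, ?_, fun n => ?_⟩
    · simpa using repA_one
    · simpa using repA_one
    · simp
  | succ I ih =>
    obtain ⟨U, L, hU, hL, hUL⟩ := ih
    have hd : Disjoint ((range I).biUnion T) (T I) := by
      rw [Finset.disjoint_biUnion_left]
      intro i hi
      exact hdisj i I (mem_range.1 hi)
    have hun : (range (I + 1)).biUnion T = (range I).biUnion T ∪ T I := by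
      rw [Finset.range_add_one, Finset.biUnion_insert, Finset.union_comm]
    have hy := repA_yb (hT I) (hΩ I) κ (hκ I) (r I)
    have hw := repA_wb (hT I) (hΩ I) κ (hκ I) (r I)
    have hNc0 : 0 ≤ ∏ i ∈ range I, Nk κ (T i) (r i) := prod_nonneg fun i _ => Nk_nonneg _ _ _
    refine ⟨fun n => U n * yb (T I) (r I) (uo Ω n),
      fun n => L n * yb (T I) (r I) (uo Ω n) - U n * wb (T I) (r I) (uo Ω n), ?_, ?_, fun n => ?_⟩
    · rw [hun, prod_range_succ, prod_range_succ]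
      refine (hU.mul hy hd).mono (subset_refl _) ?_
      apply mul_le_mul_of_nonneg_left _ hNc0
      unfold Nk
      have : (0 : ℝ) ≤ ∑ A ∈ (T I).powerset with A.card = r I, (κ : ℝ) ^ A.card :=
        sum_nonneg fun A _ => by positivity
      linarith
    · rw [hun, prod_range_succ, prod_range_succ, sum_range_succ]
      have h := (hL.mul hy hd).sub (hU.mul hw hd)
      have e1 : (∏ i ∈ range I, yb (T i) (r i) (dd Ω)) * yb (T I) (r I) (dd Ω) *
          (1 - (∑ i ∈ range I, wb (T i) (r i) (dd Ω) / yb (T i) (r i) (dd Ω)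
            + wb (T I) (r I) (dd Ω) / yb (T I) (r I) (dd Ω)))
          = (∏ i ∈ range I, yb (T i) (r i) (dd Ω))
          * (1 - ∑ i ∈ range I, wb (T i) (r i) (dd Ω) / yb (T i) (r i) (dd Ω))
            * yb (T I) (r I) (dd Ω)
            - (∏ i ∈ range I, yb (T i) (r i) (dd Ω)) * wb (T I) (r I) (dd Ω) := by
        have := (hV I).ne'
        field_simp
        ring
      rw [e1]
      refine h.mono (subset_refl _) ?_
      unfold Nk
      rw [mul_add]
    · rw [prod_range_succ]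
      obtain ⟨h1, h2⟩ := hUL n
      have hp0 : 0 ≤ ∏ i ∈ range I, ∏ p ∈ T i, (1 - uo Ω n p) :=
        prod_nonneg fun i _ => prod_nonneg fun p _ => by linarith [uo_le_one (Ω := Ω) n p]
      have hq0 : 0 ≤ ∏ p ∈ T I, (1 - uo Ω n p) :=
        prod_nonneg fun p _ => by linarith [uo_le_one (Ω := Ω) n p]
      have hy1 := yb_ge (T I) (r I) (hr I) (uo Ω n) (fun p _ => uo_nonneg n p)
        (fun p _ => uo_le_one n p)
      have hy2 := yb_le (T I) (r I) (hr I) (uo Ω n) (fun p _ => uo_nonneg n p)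
        (fun p _ => uo_le_one n p)
      have hw0 := wb_nonneg (T I) (r I) (uo Ω n) (fun p _ => uo_nonneg n p)
      set X := ∏ i ∈ range I, ∏ p ∈ T i, (1 - uo Ω n p)
      set x := ∏ p ∈ T I, (1 - uo Ω n p)
      set y := yb (T I) (r I) (uo Ω n)
      set w := wb (T I) (r I) (uo Ω n)
      constructor
      · have a1 : X * (y - w) ≤ X * x := mul_le_mul_of_nonneg_left (by linarith) hp0
        have a2 : L n * y ≤ X * y := mul_le_mul_of_nonneg_right h1 (hq0.trans hy1)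
        have a3 : X * w ≤ U n * w := mul_le_mul_of_nonneg_right h2 hw0
        show L n * y - U n * w ≤ X * x
        nlinarith
      · exact mul_le_mul h2 hy1 hq0 (hp0.trans h2)

end Pool.Agent.H505R2
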