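import Pool.Agent.H505R2.RepA

set_option autoImplicit false

namespace Pool.Agent.H505R2

open Finset Pool.Agent.Helper742 Pool.Agent.H446R2

variable {Ω : ℕ → Finset ℕ}

/-- `1 - x ≥ exp (-4x)` on `[0, 4/5]`. -/
lemma one_sub_ge4 {x : ℝ} (hx0 : 0 ≤ x) (hx : x ≤ 4 / 5) : Real.exp (-(4 * x)) ≤ 1 - x := by
  have h1 : 1 + 4 * x + (4 * x) ^ 2 / 2 ≤ Real.exp (4 * x) :=
    Real.quadratic_le_exp_of_nonneg (by linarith)
  rw [Real.exp_neg]
  have hpos : 0 < 1 + 4 * x + (4 * x) ^ 2 / 2 := by positivity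
  have h2 : (Real.exp (4 * x))⁻¹ ≤ (1 + 4 * x + (4 * x) ^ 2 / 2)⁻¹ := inv_anti₀ hpos h1
  refine h2.trans ?_
  rw [inv_le_iff_one_le_mul₀ hpos]
  have h3 : 0 ≤ x * (3 + 4 * x - 8 * x ^ 2) := by
    apply mul_nonneg hx0
    nlinarith
  nlinarith

lemma dd_nonneg (p : ℕ) : 0 ≤ dd Ω p := by unfold dd; positivity

lemma dd_le_dn {p : ℕ} (hκ : (Ω p).card ≤ 4) : dd Ω p ≤ 4 * dn p := by
  unfold dd dn
  rw [mul_one_div]
  apply div_le_div_of_nonneg_right _ (Nat.cast_nonneg p)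
  exact_mod_cast hκ

lemma dd_le {p : ℕ} (hp5 : 5 ≤ p) (hκ : (Ω p).card ≤ 4) : dd Ω p ≤ 4 / 5 := by
  unfold dd
  have h1 : (5 : ℝ) ≤ p := by exact_mod_cast hp5
  have h2 : ((Ω p).card : ℝ) ≤ 4 := by exact_mod_cast hκ
  rw [div_le_div_iff₀ (by linarith) (by norm_num)]
  nlinarith

lemma yb_dd_ge {T : Finset ℕ} (h5 : ∀ p ∈ T, 5 ≤ p) (hκ : ∀ p ∈ T, (Ω p).card ≤ 4) (r : ℕ)
    (hr : Odd r) : Real.exp (-(4 * ∑ p ∈ T, dd Ω p)) ≤ yb T r (dd Ω) := by
  refine le_trans ?_ (yb_ge T r hr (dd Ω) (fun p _ => dd_nonneg p)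
    (fun p hp => by linarith [dd_le (Ω := Ω) (h5 p hp) (hκ p hp)]))
  rw [mul_sum, ← sum_neg_distrib, Real.exp_sum]
  apply prod_le_prod
  · intro p _; positivity
  · intro p hp
    exact one_sub_ge4 (dd_nonneg p) (dd_le (h5 p hp) (hκ p hp))

lemma Nk_le (T : Finset ℕ) (r Y : ℕ) (hY : 4 ≤ Y) (hT : ∀ p ∈ T, 1 ≤ p ∧ p ≤ Y) :
    Nk 4 T r ≤ (Y : ℝ) ^ (2 * r + 1) := by
  have h1 := Nc_le T r Y hY hT
  have hY' : (4 : ℝ) ≤ Y := by exact_mod_cast hY
  have h2 : Nk 4 T r ≤ (Y : ℝ) ^ r * Nc T r := by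
    unfold Nk Nc
    rw [mul_add]
    have key : ∀ A : Finset ℕ, A.card ≤ r → ((4 : ℕ) : ℝ) ^ A.card ≤ (Y : ℝ) ^ r := by
      intro A hA
      calc ((4 : ℕ) : ℝ) ^ A.card ≤ (Y : ℝ) ^ A.card := by
            apply pow_le_pow_left₀ (by norm_num)
            exact_mod_cast hY
        _ ≤ (Y : ℝ) ^ r := pow_le_pow_right₀ (by linarith) hA
    apply add_le_add
    · rw [mul_comm, ← nsmul_eq_mul]
      apply sum_le_card_nsmul
      intro A hA
      exact key A (mem_filter.1 hA).2.le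
    · rw [mul_comm, ← nsmul_eq_mul]
      apply sum_le_card_nsmul
      intro A hA
      exact key A (mem_filter.1 hA).2.le
  calc Nk 4 T r ≤ (Y : ℝ) ^ r * Nc T r := h2
    _ ≤ (Y : ℝ) ^ r * (Y : ℝ) ^ (r + 1) := mul_le_mul_of_nonneg_left h1 (by positivity)
    _ = (Y : ℝ) ^ (2 * r + 1) := by rw [← pow_add]; congr 1; ring

/-- truncation levels -/
def ra (I i : ℕ) : ℕ := 143 + 2 * (I - 1 - i)

lemma ra_odd (I i : ℕ) : Odd (ra I i) := by
  refine ⟨71 + (I - 1 - i), ?_⟩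
  unfold ra
  ring

lemma exponent_sumA (I : ℕ) : ∑ i ∈ range I, 2 ^ (i + 1) * (2 * ra I i + 1) + 8 * I + 582
    = 582 * 2 ^ I := by
  induction I with
  | zero => simp
  | succ I ih =>
    rw [sum_range_succ']
    have h1 : ∑ i ∈ range I, 2 ^ (i + 1 + 1) * (2 * ra (I + 1) (i + 1) + 1)
        = 2 * ∑ i ∈ range I, 2 ^ (i + 1) * (2 * ra I i + 1) := by
      rw [mul_sum]
      apply sum_congr rfl
      intro i _
      have : ra (I + 1) (i + 1) = ra I i := by unfold ra; omega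
      rw [this, pow_succ 2 (i + 1)]
      ring
    rw [h1, pow_succ]
    have h2 : ra (I + 1) 0 = 143 + 2 * I := by unfold ra; omega
    rw [h2]
    omega

lemma geom_sum_boundA (I : ℕ) : ∑ i ∈ range I, (1 / 2 : ℝ) ^ (ra I i) ≤ 1 / 2 ^ 141 := by
  have h : ∀ I : ℕ, ∑ i ∈ range I, (1 / 2 : ℝ) ^ (ra I i)
      ≤ 1 / 2 ^ 141 - 1 / 2 ^ (141 + 2 * I) := by
    intro I
    induction I with
    | zero => simp
    | succ I ih =>
      rw [sum_range_succ']
      have h1 : ∀ i ∈ range I, (1 / 2 : ℝ) ^ (ra (I + 1) (i + 1)) = (1 / 2 : ℝ) ^ (ra I i) := by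
        intro i _
        have : ra (I + 1) (i + 1) = ra I i := by unfold ra; omega
        rw [this]
      rw [sum_congr rfl h1]
      have h2 : ra (I + 1) 0 = 143 + 2 * I := by unfold ra; omega
      rw [h2]
      have h3 : (1 / 2 : ℝ) ^ (143 + 2 * I) = 1 / 2 ^ (141 + 2 * I) * (1 / 4) := by
        rw [one_div_pow, show 143 + 2 * I = (141 + 2 * I) + 2 by ring, pow_add]
        field_simp
        norm_num
      have h4 : (1 : ℝ) / 2 ^ (141 + 2 * (I + 1)) = 1 / 2 ^ (141 + 2 * I) * (1 / 4) := by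
        rw [show 141 + 2 * (I + 1) = (141 + 2 * I) + 2 by ring, pow_add]
        field_simp
        norm_num
      have h5 : (0 : ℝ) < 1 / 2 ^ (141 + 2 * I) := by positivity
      rw [h3, h4]
      linarith
  have h1 := h I
  have h2 : (0 : ℝ) < 1 / 2 ^ (141 + 2 * I) := by positivity
  linarith

lemma exp96 : Real.exp 96 ≤ 2 ^ 139 := by
  have h5 : Real.exp 96 = Real.exp 1 ^ 96 := by
    rw [← Real.exp_nat_mul]; norm_num
  rw [h5]
  have h6 := Real.exp_one_lt_d9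
  calc Real.exp 1 ^ 96 ≤ 2.7183 ^ 96 := pow_le_pow_left₀ (Real.exp_pos 1).le (by linarith) 96
    _ ≤ 2 ^ 139 := by norm_num

/-- Lower bound sieve with at most four excluded classes for each prime `p ≥ 5`, and level a fixed
power of the sifting limit. -/
theorem sieve_lowerA (S : Finset ℕ) (hS : ∀ p ∈ S, p.Prime) (h5 : ∀ p ∈ S, 5 ≤ p)
    (hΩ : ∀ p ∈ S, Ω p ⊆ range p) (hκ : ∀ p ∈ S, (Ω p).card ≤ 4) (I : ℕ) (hI : 1 ≤ I)
    (hSY : ∀ p ∈ S, p ≤ 2 ^ 2 ^ I) (k : ℕ) :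
    (k : ℝ) * (Real.exp (-64) ^ I / 2) - (2 : ℝ) ^ (582 * 2 ^ I)
      ≤ (((Ioc 0 k).filter (fun n => ∀ p ∈ S, n % p ∉ Ω p)).card : ℝ) := by
  have hTS : ∀ i, TT S i ⊆ S := fun i => filter_subset _ _
  have hTp : ∀ i, ∀ p ∈ TT S i, p.Prime := fun i p hp => hS p (hTS i hp)
  have hT5 : ∀ i, ∀ p ∈ TT S i, 5 ≤ p := fun i p hp => h5 p (hTS i hp)
  have hTΩ : ∀ i, ∀ p ∈ TT S i, Ω p ⊆ range p := fun i p hp => hΩ p (hTS i hp)
  have hTκ : ∀ i, ∀ p ∈ TT S i, (Ω p).card ≤ 4 := fun i p hp => hκ p (hTS i hp)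
  have hsum : ∀ i, ∑ p ∈ TT S i, dd Ω p ≤ 16 := by
    intro i
    calc ∑ p ∈ TT S i, dd Ω p ≤ ∑ p ∈ TT S i, 4 * dn p :=
          sum_le_sum fun p hp => dd_le_dn (hTκ i p hp)
      _ = 4 * ∑ p ∈ TT S i, dn p := by rw [mul_sum]
      _ ≤ 4 * 4 := mul_le_mul_of_nonneg_left (TT_sum S hS i) (by norm_num)
      _ = 16 := by norm_num
  have hVge : ∀ i, Real.exp (-64) ≤ yb (TT S i) (ra I i) (dd Ω) := by
    intro i
    refine le_trans ?_ (yb_dd_ge (hT5 i) (hTκ i) (ra I i) (ra_odd I i))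
    apply Real.exp_le_exp.2
    linarith [hsum i]
  have hVpos : ∀ i, 0 < yb (TT S i) (ra I i) (dd Ω) := fun i => (Real.exp_pos _).trans_le (hVge i)
  obtain ⟨U, L, hU, hL, hUL⟩ := blocksA (TT S) (ra I) hTp hTΩ 4 hTκ (TT_disj S) (ra_odd I) hVpos I
  have h1 := hL.sum_bound k
  have h2 := (abs_le.1 h1).1
  -- the indicator
  have h3 : ∀ n, L n ≤ if ∀ p ∈ S, n % p ∉ Ω p then (1 : ℝ) else 0 := by
    intro n
    refine (hUL n).1.trans ?_
    by_cases h : ∀ p ∈ S, n % p ∉ Ω p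
    · rw [if_pos h]
      apply Finset.prod_le_one
      · intro i _
        exact prod_nonneg fun p _ => by linarith [uo_le_one (Ω := Ω) n p]
      · intro i _
        apply Finset.prod_le_one
        · intro p _; linarith [uo_le_one (Ω := Ω) n p]
        · intro p _; linarith [uo_nonneg (Ω := Ω) n p]
    · rw [if_neg h]
      push Not at h
      obtain ⟨p, hp, hpn⟩ := h
      obtain ⟨i, hi, hpi⟩ := TT_cover S p hp I hI (hSY p hp)
      apply le_of_eq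
      apply prod_eq_zero (mem_range.2 hi)
      apply prod_eq_zero hpi
      rw [uo, if_pos hpn]
      ring
  have h4 : ∑ n ∈ Ioc 0 k, L n
      ≤ (((Ioc 0 k).filter (fun n => ∀ p ∈ S, n % p ∉ Ω p)).card : ℝ) := by
    rw [Finset.card_filter]
    push_cast
    exact sum_le_sum fun n _ => h3 n
  -- main term
  have hW : ∀ i, wb (TT S i) (ra I i) (dd Ω) / yb (TT S i) (ra I i) (dd Ω)
      ≤ (1 / 2 : ℝ) ^ (ra I i) * 2 ^ 139 := by
    intro i
    have h5 := wb_le (TT S i) (ra I i) (dd Ω) (fun p _ => dd_nonneg p)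
    have h6 : Real.exp (2 * ∑ p ∈ TT S i, dd Ω p) ≤ Real.exp 32 := by
      apply Real.exp_le_exp.2
      linarith [hsum i]
    rw [div_le_iff₀ (hVpos i)]
    have h7 : (1 : ℝ) ≤ Real.exp 64 * yb (TT S i) (ra I i) (dd Ω) := by
      have := mul_le_mul_of_nonneg_left (hVge i) (Real.exp_pos 64).le
      rwa [← Real.exp_add, add_neg_cancel, Real.exp_zero] at this
    calc wb (TT S i) (ra I i) (dd Ω) ≤ (1 / 2 : ℝ) ^ (ra I i) * Real.exp 32 :=
          h5.trans (mul_le_mul_of_nonneg_left h6 (by positivity))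
      _ = (1 / 2 : ℝ) ^ (ra I i) * Real.exp 32 * 1 := by ring
      _ ≤ (1 / 2 : ℝ) ^ (ra I i) * Real.exp 32 *
            (Real.exp 64 * yb (TT S i) (ra I i) (dd Ω)) :=
          mul_le_mul_of_nonneg_left h7 (by positivity)
      _ = (1 / 2 : ℝ) ^ (ra I i) * (Real.exp 32 * Real.exp 64) * yb (TT S i) (ra I i) (dd Ω) := by
          ring
      _ ≤ (1 / 2 : ℝ) ^ (ra I i) * 2 ^ 139 * yb (TT S i) (ra I i) (dd Ω) := by
          apply mul_le_mul_of_nonneg_right _ (hVpos i).le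
          apply mul_le_mul_of_nonneg_left _ (by positivity)
          rw [← Real.exp_add, show (32 : ℝ) + 64 = 96 by norm_num]
          exact exp96
  have hWs : ∑ i ∈ range I, wb (TT S i) (ra I i) (dd Ω) / yb (TT S i) (ra I i) (dd Ω)
      ≤ 1 / 2 := by
    refine (sum_le_sum fun i _ => hW i).trans ?_
    rw [← sum_mul]
    have := geom_sum_boundA I
    calc (∑ i ∈ range I, (1 / 2 : ℝ) ^ ra I i) * 2 ^ 139 ≤ 1 / 2 ^ 141 * 2 ^ 139 :=
          mul_le_mul_of_nonneg_right this (by positivity)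
      _ ≤ 1 / 2 := by norm_num
  have hVprod : Real.exp (-64) ^ I ≤ ∏ i ∈ range I, yb (TT S i) (ra I i) (dd Ω) := by
    calc Real.exp (-64) ^ I = ∏ i ∈ range I, Real.exp (-64) := by simp
      _ ≤ _ := prod_le_prod (fun i _ => (Real.exp_pos _).le) (fun i _ => hVge i)
  have hmain : Real.exp (-64) ^ I / 2 ≤ (∏ i ∈ range I, yb (TT S i) (ra I i) (dd Ω))
      * (1 - ∑ i ∈ range I, wb (TT S i) (ra I i) (dd Ω) / yb (TT S i) (ra I i) (dd Ω)) := by
    have hp : 0 < Real.exp (-64) ^ I := by positivity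
    calc Real.exp (-64) ^ I / 2 = Real.exp (-64) ^ I * (1 / 2) := by ring
      _ ≤ _ := mul_le_mul hVprod (by linarith) (by norm_num) (hp.le.trans hVprod)
  -- error term
  have hE : ∏ i ∈ range I, Nk 4 (TT S i) (ra I i) ≤ (2 : ℝ) ^ (582 * 2 ^ I) := by
    have h5 : ∀ i ∈ range I, Nk 4 (TT S i) (ra I i)
        ≤ (2 : ℝ) ^ (2 ^ (i + 1) * (2 * ra I i + 1)) := by
      intro i _
      have h6 := Nk_le (TT S i) (ra I i) (2 ^ 2 ^ (i + 1)) (by
        calc 4 = 2 ^ 2 ^ 1 := by norm_num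
          _ ≤ 2 ^ 2 ^ (i + 1) := Nat.pow_le_pow_right (by norm_num)
              (Nat.pow_le_pow_right (by norm_num) (by omega))) (by
        intro p hp
        refine ⟨(hTp i p hp).one_le, ?_⟩
        rw [TT, mem_filter] at hp
        exact hp.2.1)
      refine h6.trans (le_of_eq ?_)
      push_cast
      rw [← pow_mul]
    refine (prod_le_prod (fun i _ => Nk_nonneg _ _ _) h5).trans ?_
    rw [prod_pow_eq_pow_sum]
    apply pow_le_pow_right₀ (by norm_num)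
    have := exponent_sumA I
    omega
  have hk : (0 : ℝ) ≤ k := Nat.cast_nonneg k
  have := mul_le_mul_of_nonneg_left hmain hk
  linarith

end Pool.Agent.H505R2
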