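import Pool.Agent.H505R2.SieveA
import Pool.Agent.H505R2.Forms

set_option autoImplicit false

namespace Pool.Agent.H505R2

open Finset

/-- sifting primes -/
def SI (I : ℕ) : Finset ℕ := (Icc 5 (2 ^ 2 ^ I)).filter Nat.Prime

/-- no sifting prime divides `n` -/
def Sft (I : ℕ) (n : ℤ) : Prop := ∀ p ∈ SI I, ¬ (p : ℤ) ∣ n

lemma mem_SI {I p : ℕ} : p ∈ SI I ↔ 5 ≤ p ∧ p ≤ 2 ^ 2 ^ I ∧ p.Prime := by
  rw [SI, mem_filter, mem_Icc, and_assoc]

open Classical in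
theorem sift_quad (I : ℕ) (hI : 1 ≤ I) (A1 B1 C1 A2 B2 C2 : ℤ) (h1 : Sft I A1) (h2 : Sft I A2)
    (k : ℕ) :
    (k : ℝ) * (Real.exp (-64) ^ I / 2) - 2 ^ (582 * 2 ^ I) ≤
      (((Ioc 0 k).filter (fun n : ℕ => Sft I (A1 * (n : ℤ) ^ 2 + B1 * n + C1) ∧
        Sft I (A2 * (n : ℤ) ^ 2 + B2 * n + C2))).card : ℝ) := by
  set Ω : ℕ → Finset ℕ := fun p => (range p).filter (fun r : ℕ =>
    (p : ℤ) ∣ A1 * (r : ℤ) ^ 2 + B1 * r + C1 ∨ (p : ℤ) ∣ A2 * (r : ℤ) ^ 2 + B2 * r + C2) with hΩdef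
  have hΩ : ∀ p ∈ SI I, Ω p ⊆ range p := fun p _ => filter_subset _ _
  have hκ : ∀ p ∈ SI I, (Ω p).card ≤ 4 := by
    intro p hp
    obtain ⟨h5, hle, hpp⟩ := mem_SI.1 hp
    simp only [hΩdef]
    rw [filter_or]
    refine (card_union_le _ _).trans ?_
    have e1 := roots_le_two p hpp A1 B1 C1 (h1 p hp)
    have e2 := roots_le_two p hpp A2 B2 C2 (h2 p hp)
    omega
  have h := sieve_lowerA (Ω := Ω) (SI I) (fun p hp => (mem_SI.1 hp).2.2) (fun p hp => (mem_SI.1 hp).1)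
    hΩ hκ I hI (fun p hp => (mem_SI.1 hp).2.1) k
  refine h.trans ?_
  have hsub : (Ioc 0 k).filter (fun n => ∀ p ∈ SI I, n % p ∉ Ω p) ⊆
      (Ioc 0 k).filter (fun n : ℕ => Sft I (A1 * (n : ℤ) ^ 2 + B1 * n + C1) ∧
        Sft I (A2 * (n : ℤ) ^ 2 + B2 * n + C2)) := by
    intro n hn
    rw [mem_filter] at hn ⊢
    refine ⟨hn.1, ?_, ?_⟩
    · intro p hp hd
      apply hn.2 p hp
      have hpp := (mem_SI.1 hp).2.2
      simp only [hΩdef]
      rw [mem_filter, mem_range]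
      exact ⟨Nat.mod_lt _ hpp.pos, Or.inl ((quad_mod p A1 B1 C1 n).2 hd)⟩
    · intro p hp hd
      apply hn.2 p hp
      have hpp := (mem_SI.1 hp).2.2
      simp only [hΩdef]
      rw [mem_filter, mem_range]
      exact ⟨Nat.mod_lt _ hpp.pos, Or.inr ((quad_mod p A2 B2 C2 n).2 hd)⟩
  exact_mod_cast card_le_card hsub

lemma exp64 : Real.exp 64 ≤ 2 ^ 93 := by
  have h5 : Real.exp 64 = Real.exp 1 ^ 64 := by
    rw [← Real.exp_nat_mul]; norm_num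
  rw [h5]
  have h6 := Real.exp_one_lt_d9
  calc Real.exp 1 ^ 64 ≤ 2.7183 ^ 64 := pow_le_pow_left₀ (Real.exp_pos 1).le (by linarith) 64
    _ ≤ 2 ^ 93 := by norm_num

/-- `exp (-64) ^ I ≥ 2 ^ (-93 I)` in product form -/
lemma expI (I : ℕ) : (1 : ℝ) ≤ Real.exp (-64) ^ I * 2 ^ (93 * I) := by
  rw [pow_mul, ← mul_pow]
  apply one_le_pow₀
  rw [Real.exp_neg, inv_mul_eq_div, one_le_div (Real.exp_pos _)]
  exact exp64

lemma pow_big (I : ℕ) (hI : 10 ≤ I) : 93 * I + 20 ≤ 2 ^ I := by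
  induction I, hI using Nat.le_induction with
  | base => norm_num
  | succ I hI ih =>
    rw [pow_succ]
    omega

lemma K_big (I : ℕ) (hI : 10 ≤ I) :
    0 < ((2 ^ (584 * 2 ^ I) : ℕ) : ℝ) * (Real.exp (-64) ^ I / 2) - 2 ^ (582 * 2 ^ I) := by
  have h1 := expI I
  have h2 := pow_big I hI
  have h3 : (2 : ℝ) ^ (582 * 2 ^ I) * 2 ^ (93 * I) * 4 ≤ 2 ^ (584 * 2 ^ I) := by
    rw [show (4 : ℝ) = 2 ^ 2 by norm_num, ← pow_add, ← pow_add]
    apply pow_le_pow_right₀ (by norm_num)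
    omega
  push_cast
  have h4 : (0 : ℝ) < 2 ^ (93 * I) := by positivity
  have h5 : (0 : ℝ) < Real.exp (-64) ^ I := by positivity
  have h6 : (0 : ℝ) < 2 ^ (582 * 2 ^ I) := by positivity
  have h7 : (2 : ℝ) ^ (582 * 2 ^ I) * 2 ^ (93 * I) * 4 * (Real.exp (-64) ^ I / 2)
      ≤ 2 ^ (584 * 2 ^ I) * (Real.exp (-64) ^ I / 2) :=
    mul_le_mul_of_nonneg_right h3 (by positivity)
  have h8 : (2 : ℝ) ^ (582 * 2 ^ I) * 2 ^ (93 * I) * 4 * (Real.exp (-64) ^ I / 2)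
      = 2 * (2 : ℝ) ^ (582 * 2 ^ I) * (Real.exp (-64) ^ I * 2 ^ (93 * I)) := by ring
  rw [h8] at h7
  have h9 : 2 * (2 : ℝ) ^ (582 * 2 ^ I) * 1
      ≤ 2 * (2 : ℝ) ^ (582 * 2 ^ I) * (Real.exp (-64) ^ I * 2 ^ (93 * I)) :=
    mul_le_mul_of_nonneg_left h1 (by positivity)
  linarith

lemma Sft_mul {I : ℕ} {m n : ℤ} (hm : Sft I m) (hn : Sft I n) : Sft I (m * n) := by
  intro p hp hd
  have hpZ : Prime (p : ℤ) := Nat.prime_iff_prime_int.1 (mem_SI.1 hp).2.2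
  rcases hpZ.dvd_or_dvd hd with h | h
  · exact hm p hp h
  · exact hn p hp h

lemma Sft_1296 (I : ℕ) : Sft I 1296 := by
  intro p hp hd
  obtain ⟨h5, _, hpp⟩ := mem_SI.1 hp
  have h1 : p ∣ 6 ^ 4 := by
    have : (p : ℤ) ∣ ((6 ^ 4 : ℕ) : ℤ) := by norm_num; exact hd
    exact_mod_cast this
  have h2 : p ∣ 6 := hpp.dvd_of_dvd_pow h1
  have h3 : p ≤ 6 := Nat.le_of_dvd (by norm_num) h2
  interval_cases p
  · revert h2; norm_num
  · revert hpp; norm_num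

theorem exists_triple {b c : ℤ} (j t m : ℤ) (hbc : b ^ 2 < 4 * c) (I : ℕ) (hI : 10 ≤ I)
    (g : ℤ × ℤ) (hg : IsCoprime g.1 g.2) (u v : ℤ) (hv : g.2 = 36 * v + 1)
    (hu : g.1 = 36 * u + j * g.2) (hS : Sft I (qf b c g)) :
    ∃ x : ℤ × ℤ, dt g x = 1 ∧ 36 * qf b c g ≤ ip b c g x ∧
      ip b c g x ≤ (36 * 2 ^ (584 * 2 ^ I) + 36) * qf b c g ∧
      Sft I (qf b c x) ∧ Sft I (qf b c (x.1 + m * g.1, x.2 + m * g.2)) ∧
      ∃ u' v' : ℤ, x.1 = 36 * u' + (j * t - 1) ∧ x.2 = 36 * v' + t := by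
  classical
  obtain ⟨a, d, had⟩ := hg
  have hd0 : dt g (-d, a) = 1 := by unfold dt; simp only; linarith
  have hq := (qf_pos hbc le_rfl hd0).1
  set q := qf b c g with hqdef
  set n0 := ip b c g (-d, a) with hn0
  set w0 := n0 / q with hw0
  set x0 : ℤ × ℤ := (-d - w0 * g.1, a - w0 * g.2) with hx0
  have hdx0 : g.1 * x0.2 - g.2 * x0.1 = 1 := by
    simp only [hx0]; linear_combination had
  have hip0 : ip b c g x0 = n0 % q := by
    have h1 : n0 % q = n0 - q * w0 := by rw [hw0]; exact Int.emod_def _ _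
    rw [h1, hn0, hqdef]
    simp only [hx0]
    unfold ip qf
    ring
  set k0 := (t - x0.2) % 36 with hk0
  have hk00 : 0 ≤ k0 := Int.emod_nonneg _ (by norm_num)
  have hk01 : k0 < 36 := Int.emod_lt_of_pos _ (by norm_num)
  set L := ip b c g x0 + ip b c x0 g with hL
  set K : ℕ := 2 ^ (584 * 2 ^ I) with hK
  have hA : Sft I (1296 * q) := Sft_mul (Sft_1296 I) hS
  have hs := sift_quad I (by omega) (1296 * q) (72 * k0 * q + 36 * L) (q * k0 ^ 2 + L * k0 + qf b c x0)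
    (1296 * q) (72 * (k0 + m) * q + 36 * L) (q * (k0 + m) ^ 2 + L * (k0 + m) + qf b c x0) hA hA K
  have hpos := lt_of_lt_of_le (K_big I hI) hs
  have hne : ((Ioc 0 K).filter (fun n : ℕ =>
      Sft I (1296 * q * (n : ℤ) ^ 2 + (72 * k0 * q + 36 * L) * n + (q * k0 ^ 2 + L * k0 + qf b c x0)) ∧
      Sft I (1296 * q * (n : ℤ) ^ 2 + (72 * (k0 + m) * q + 36 * L) * n
        + (q * (k0 + m) ^ 2 + L * (k0 + m) + qf b c x0)))).Nonempty := by
    rw [← Finset.card_pos]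
    exact_mod_cast hpos
  obtain ⟨n, hn⟩ := hne
  rw [mem_filter, mem_Ioc] at hn
  obtain ⟨⟨hj0, hjK⟩, hj1, hj2⟩ := hn
  have hjK' : (n : ℤ) ≤ 2 ^ (584 * 2 ^ I) := by
    have : ((n : ℕ) : ℤ) ≤ ((2 ^ (584 * 2 ^ I) : ℕ) : ℤ) := by exact_mod_cast hjK
    push_cast at this
    exact this
  obtain ⟨R, hR⟩ : ∃ R : ℤ, R = 2 ^ (584 * 2 ^ I) := ⟨_, rfl⟩
  rw [← hR] at hjK' ⊢
  clear_value K
  clear hs hpos hK
  set k : ℤ := k0 + 36 * n with hk
  have hn1 : (1 : ℤ) ≤ n := by exact_mod_cast hj0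
  have hkge : 36 ≤ k := by rw [hk]; linarith
  have hkle : k + 1 ≤ 36 * R + 36 := by rw [hk]; linarith
  have h1 : ip b c g (x0.1 + k * g.1, x0.2 + k * g.2) = n0 % q + k * q := by
    rw [← hip0, hqdef]; unfold ip qf; simp only; ring
  have e1 := Int.emod_nonneg n0 hq.ne'
  have e2 := Int.emod_lt_of_pos n0 hq
  refine ⟨(x0.1 + k * g.1, x0.2 + k * g.2), ?_, ?_, ?_, ?_, ?_, ?_⟩
  · unfold dt; simp only; linear_combination hdx0
  · rw [h1]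
    nlinarith
  · rw [h1]
    nlinarith
  · have h1 : qf b c (x0.1 + k * g.1, x0.2 + k * g.2) = 1296 * q * (n : ℤ) ^ 2
        + (72 * k0 * q + 36 * L) * n + (q * k0 ^ 2 + L * k0 + qf b c x0) := by
      rw [hL, hqdef, hk]; unfold ip qf; simp only; ring
    rw [h1]; exact hj1
  · have h1 : qf b c ((x0.1 + k * g.1, x0.2 + k * g.2).1 + m * g.1,
        (x0.1 + k * g.1, x0.2 + k * g.2).2 + m * g.2) = 1296 * q * (n : ℤ) ^ 2
        + (72 * (k0 + m) * q + 36 * L) * n + (q * (k0 + m) ^ 2 + L * (k0 + m) + qf b c x0) := by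
      rw [hL, hqdef, hk]; unfold ip qf; simp only; ring
    rw [h1]; exact hj2
  · obtain ⟨w, hw⟩ : ∃ w, t - x0.2 = 36 * w + k0 := ⟨(t - x0.2) / 36, by omega⟩
    have h2 : x0.2 + k * g.2 = 36 * (-w + n + k * v) + t := by
      rw [hv, hk]; linear_combination -hw
    refine ⟨u * (x0.2 + k * g.2) - v * (x0.1 + k * g.1) + j * v * (x0.2 + k * g.2)
      + j * (-w + n + k * v), -w + n + k * v, ?_, h2⟩
    simp only
    have h3 : g.1 * (x0.2 + k * g.2) - g.2 * (x0.1 + k * g.1) = 1 := by linear_combination hdx0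
    rw [hu, hv] at h3
    rw [hu, hv]
    rw [hv] at h2
    linear_combination -h3 + j * h2

end Pool.Agent.H505R2
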